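import Pool.Agent.W480.X6.Proj

set_option autoImplicit false
set_option linter.unusedSectionVars false

/-!
The map is birational.
-/

namespace Pool.Agent.W480.X6

open MvPolynomial Pool.Agent.W480.DD Pool.Agent.Helper993.CS

universe u

variable {K : Type u} [Field K]

/-- `f` is birational: there is a rational map `g` with `g (f (x)) = x`. -/
def IsBirational {N : ℕ} (f : RatMap K N) : Prop :=
  f.Dominant ∧ ∃ (g : RatMap K N) (c : MvPolynomial (Fin (N + 1)) K), c ≠ 0 ∧
    ∀ i, bind₁ f.poly (g.poly i) = c * X i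

theorem bir_of_surj [Infinite K] (φ : Rat3 K →ₐ[K] Rat3 K) (hφ : Function.Surjective φ)
    (f : RatMap K 3) (h0 : aeval (gen K) (f.poly 0) ≠ 0)
    (h1 : ∀ i : Fin 3, φ (io (X i)) * aeval (gen K) (f.poly 0) = aeval (gen K) (f.poly i.succ)) :
    ∃ (g : RatMap K 3) (c : Pol4 K), c ≠ 0 ∧ ∀ i, bind₁ f.poly (g.poly i) = c * X i := by
  choose w hw using fun i : Fin 3 => hφ (io (X i))
  obtain ⟨g, g0, g1⟩ := exists_map (y := w)
  have hgen : ∀ i, aeval (gen K) (f.poly i) = aeval (gen K) (f.poly 0) * φ (gen K i) := by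
    intro i
    refine Fin.cases ?_ (fun j => ?_) i
    · rw [gen_zero, map_one, mul_one]
    · rw [gen_succ, ← h1, mul_comm]
  have key : ∀ j, aeval (gen K) (bind₁ f.poly (g.poly j)) =
      aeval (gen K) (f.poly 0) ^ g.degree * φ (aeval (gen K) (g.poly j)) := by
    intro j
    have e1 : φ (aeval (gen K) (g.poly j)) = aeval (fun i => φ (gen K i)) (g.poly j) := by
      rw [← AlgHom.comp_apply, comp_aeval]
    rw [aeval_bind₁, e1, ← ff_scale (g.homogeneous j)]
    congr 2
    funext i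
    exact hgen i
  have k0 : aeval (gen K) (bind₁ f.poly (g.poly 0)) ≠ 0 := by
    rw [key]
    apply mul_ne_zero (pow_ne_zero _ h0)
    intro h
    exact g0 ((map_eq_zero φ).1 h)
  have k1 : ∀ i : Fin 3, io (X i) * aeval (gen K) (bind₁ f.poly (g.poly 0)) =
      aeval (gen K) (bind₁ f.poly (g.poly i.succ)) := by
    intro i
    rw [key, key, ← g1 i, map_mul, hw]
    ring
  have hhom : ∀ j, (bind₁ f.poly (g.poly j)).IsHomogeneous (f.degree * g.degree) := fun j =>
    (g.homogeneous j).aeval f.poly f.homogeneous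
  have k2 : ∀ i : Fin 3, X i.succ * bind₁ f.poly (g.poly 0) =
      X 0 * bind₁ f.poly (g.poly i.succ) := by
    intro i
    have e1 : (X i.succ * bind₁ f.poly (g.poly 0) -
        X 0 * bind₁ f.poly (g.poly i.succ)).IsHomogeneous (1 + f.degree * g.degree) :=
      ((isHomogeneous_X _ _).mul (hhom 0)).sub ((isHomogeneous_X _ _).mul (hhom _))
    have e2 : aeval (gen K) (X i.succ * bind₁ f.poly (g.poly 0) -
        X 0 * bind₁ f.poly (g.poly i.succ)) = 0 := by
      rw [map_sub, map_mul, map_mul, aeval_X, aeval_X, gen_zero, gen_succ, k1]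
      ring
    exact sub_eq_zero.1 (gx_inj e1 e2)
  have hp : Prime (X 0 : Pol4 K) := X_prime
  have k3 : (X 0 : Pol4 K) ∣ bind₁ f.poly (g.poly 0) := by
    have h2 : (X 0 : Pol4 K) ∣ X (Fin.succ 0) * bind₁ f.poly (g.poly 0) := ⟨_, k2 0⟩
    refine (hp.dvd_or_dvd h2).resolve_left ?_
    rintro ⟨q, hq⟩
    have := congrArg (eval (Fin.cons 0 (fun _ => 1) : Fin (3 + 1) → K)) hq
    simp at this
  obtain ⟨c, hc⟩ := k3
  have hc0 : c ≠ 0 := by
    rintro rfl
    rw [hc, mul_zero, map_zero] at k0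
    exact k0 rfl
  refine ⟨g, c, hc0, fun i => ?_⟩
  refine Fin.cases ?_ (fun j => ?_) i
  · rw [hc, mul_comm]
  · have := k2 j
    rw [hc] at this
    apply mul_left_cancel₀ (X_ne_zero (R := K) (0 : Fin (3 + 1)))
    rw [← this]
    ring

theorem sig_surj (K : Type u) [Field K] [CharZero K] : Function.Surjective (sig K) := by
  have h : (sig K).fieldRange = ⊤ := by
    rw [eq_top_iff, ← adjoin_img, IntermediateField.adjoin_le_iff]
    rintro _ ⟨i, rfl⟩
    exact ⟨io (X i), sig_X K i⟩
  intro z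
  have hz : z ∈ (sig K).fieldRange := by
    rw [h]
    trivial
  exact hz

end Pool.Agent.W480.X6
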