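import Pool.Agent.W480.X6.Seq

set_option autoImplicit false
set_option linter.unusedSectionVars false

/-!
Addition on the curves `y² = x³ + β`, with bounds for the sizes of the coordinates.
-/

namespace Pool.Agent.W480.X6

open MvPolynomial WeierstrassCurve

universe u

section general

variable {F : Type u} [Field F] [DecidableEq F] {W : WeierstrassCurve.Affine F} {β : F}

/-- the equation of `W` is `y² = x³ + β` -/
structure IsB (W : WeierstrassCurve.Affine F) (β : F) : Prop where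
  a₁ : W.a₁ = 0
  a₂ : W.a₂ = 0
  a₃ : W.a₃ = 0
  a₄ : W.a₄ = 0
  a₆ : W.a₆ = β

/-- `P` is the affine point `(x, y)` -/
def At (P : W.Point) (x y : F) : Prop := ∃ h : W.Nonsingular x y, P = Affine.Point.some x y h

theorem At.inj {P : W.Point} {x y x' y' : F} (h : At P x y) (h' : At P x' y') :
    x = x' ∧ y = y' := by
  obtain ⟨h1, rfl⟩ := h
  obtain ⟨h2, h3⟩ := h'
  simpa using h3

theorem At.eq {P Q : W.Point} {x y : F} (h : At P x y) (h' : At Q x y) : P = Q := by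
  obtain ⟨h1, rfl⟩ := h
  obtain ⟨h2, rfl⟩ := h'
  rfl

theorem at_or_zero (P : W.Point) : P = 0 ∨ ∃ x y, At P x y := by
  rcases P with _ | ⟨x, y, h⟩
  · exact Or.inl rfl
  · exact Or.inr ⟨x, y, h, rfl⟩

theorem At.ne_zero {P : W.Point} {x y : F} (h : At P x y) : P ≠ 0 := by
  obtain ⟨h1, rfl⟩ := h
  exact Affine.Point.some_ne_zero h1

theorem IsB.equation (hW : IsB W β) {x y : F} : W.Equation x y ↔ y ^ 2 = x ^ 3 + β := by
  rw [Affine.equation_iff, hW.a₁, hW.a₂, hW.a₃, hW.a₄, hW.a₆]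
  constructor
  · intro h
    linear_combination h
  · intro h
    linear_combination h

theorem At.eqn (hW : IsB W β) {P : W.Point} {x y : F} (h : At P x y) : y ^ 2 = x ^ 3 + β := by
  obtain ⟨h1, -⟩ := h
  exact hW.equation.1 h1.1

theorem IsB.negY (hW : IsB W β) (x y : F) : W.negY x y = -y := by
  rw [Affine.negY, hW.a₁, hW.a₃]
  ring

theorem IsB.exists_at (hW : IsB W β) {x y : F} (h : y ^ 2 = x ^ 3 + β) (hy : 2 * y ≠ 0) :
    ∃ P : W.Point, At P x y := by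
  have h1 : W.Nonsingular x y := by
    rw [Affine.nonsingular_iff]
    refine ⟨hW.equation.2 h, Or.inr ?_⟩
    rw [hW.a₁, hW.a₃]
    intro h2
    apply hy
    linear_combination h2
  exact ⟨_, h1, rfl⟩

theorem At.neg (hW : IsB W β) {P : W.Point} {x y : F} (h : At P x y) : At (-P) x (-y) := by
  obtain ⟨h1, rfl⟩ := h
  rw [Affine.Point.neg_some]
  have := hW.negY x y
  exact ⟨by rw [← this]; exact (Affine.nonsingular_neg ..).2 h1, by simp only [this]⟩

theorem add_at_ne (hW : IsB W β) {P Q : W.Point} {x₁ y₁ x₂ y₂ : F} (hP : At P x₁ y₁)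
    (hQ : At Q x₂ y₂) (hx : x₁ ≠ x₂) (ℓ : F) (hℓ : ℓ = (y₁ - y₂) / (x₁ - x₂)) :
    At (P + Q) (ℓ ^ 2 - x₁ - x₂) (-(ℓ * (ℓ ^ 2 - x₁ - x₂ - x₁) + y₁)) := by
  obtain ⟨h1, rfl⟩ := hP
  obtain ⟨h2, rfl⟩ := hQ
  have key := Affine.Point.add_of_X_ne (h₁ := h1) (h₂ := h2) hx
  rw [key]
  have e1 : W.slope x₁ x₂ y₁ y₂ = ℓ := by
    rw [Affine.slope_of_X_ne hx, hℓ]
  have e2 : W.addX x₁ x₂ ℓ = ℓ ^ 2 - x₁ - x₂ := by
    rw [Affine.addX, hW.a₁, hW.a₂]
    ring
  have e3 : W.addY x₁ x₂ y₁ ℓ = -(ℓ * (ℓ ^ 2 - x₁ - x₂ - x₁) + y₁) := by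
    rw [Affine.addY, hW.negY, Affine.negAddY, e2]
  have h4 := Affine.nonsingular_add h1 h2 (fun h => hx h.1)
  rw [e1, e2, e3] at h4
  refine ⟨h4, ?_⟩
  simp only [e1, e2, e3]

theorem add_self_at (hW : IsB W β) {P : W.Point} {x y : F} (hP : At P x y) (hy : 2 * y ≠ 0)
    (ℓ : F) (hℓ : ℓ = 3 * x ^ 2 / (2 * y)) :
    At (P + P) (ℓ ^ 2 - x - x) (-(ℓ * (ℓ ^ 2 - x - x - x) + y)) := by
  obtain ⟨h1, rfl⟩ := hP
  have hy' : y ≠ W.negY x y := by
    rw [hW.negY]
    intro h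
    apply hy
    linear_combination h
  have key := Affine.Point.add_self_of_Y_ne (h₁ := h1) hy'
  rw [key]
  have e1 : W.slope x x y y = ℓ := by
    rw [Affine.slope_of_Y_ne rfl hy', hW.a₁, hW.a₂, hW.a₄, hW.negY, hℓ]
    congr 1 <;> ring
  have e2 : W.addX x x ℓ = ℓ ^ 2 - x - x := by
    rw [Affine.addX, hW.a₁, hW.a₂]
    ring
  have e3 : W.addY x x y ℓ = -(ℓ * (ℓ ^ 2 - x - x - x) + y) := by
    rw [Affine.addY, hW.negY, Affine.negAddY, e2]
  have h4 := Affine.nonsingular_add h1 h1 (fun h => hy' h.2)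
  rw [e1, e2, e3] at h4
  refine ⟨h4, ?_⟩
  simp only [e1, e2, e3]

/-- case distinction for the addition of two points -/
theorem add_cases (hW : IsB W β) (P Q : W.Point) : P = 0 ∨ Q = 0 ∨ P + Q = 0 ∨
    ∃ x₁ y₁ x₂ y₂ ℓ : F, At P x₁ y₁ ∧ At Q x₂ y₂ ∧
      At (P + Q) (ℓ ^ 2 - x₁ - x₂) (-(ℓ * (ℓ ^ 2 - x₁ - x₂ - x₁) + y₁)) ∧
      (ℓ = (y₁ - y₂) / (x₁ - x₂) ∨ ℓ = 3 * x₁ ^ 2 / (2 * y₁)) := by
  rcases at_or_zero P with rfl | ⟨x₁, y₁, hP⟩
  · exact Or.inl rfl
  rcases at_or_zero Q with rfl | ⟨x₂, y₂, hQ⟩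
  · exact Or.inr (Or.inl rfl)
  right; right
  by_cases hx : x₁ = x₂
  · subst hx
    have e1 := hP.eqn hW
    have e2 := hQ.eqn hW
    have e3 : (y₁ - y₂) * (y₁ + y₂) = 0 := by linear_combination e1 - e2
    rcases mul_eq_zero.1 e3 with h | h
    · have h' : y₁ = y₂ := by linear_combination h
      subst h'
      have hPQ : P = Q := hP.eq hQ
      subst hPQ
      by_cases hy : 2 * y₁ = 0
      · left
        have h2 : y₁ = -y₁ := by linear_combination hy
        have h3 := hP.neg hW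
        rw [← h2] at h3
        have h4 : P = -P := hP.eq h3
        rw [add_eq_zero_iff_eq_neg]
        exact h4
      · right
        exact ⟨x₁, y₁, x₁, y₁, _, hP, hP, add_self_at hW hP hy _ rfl, Or.inr rfl⟩
    · left
      have h2 : y₁ = -y₂ := by linear_combination h
      have h3 := hQ.neg hW
      rw [← h2] at h3
      have h4 : P = -Q := hP.eq h3
      rw [add_eq_zero_iff_eq_neg]
      exact h4
  · right
    exact ⟨x₁, y₁, x₂, y₂, _, hP, hQ, add_at_ne hW hP hQ hx _ rfl, Or.inl rfl⟩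

/-- points with coordinates in a subfield -/
def In (M : Subfield F) (P : W.Point) : Prop := P = 0 ∨ ∃ x y, At P x y ∧ x ∈ M ∧ y ∈ M

theorem In.neg (hW : IsB W β) {M : Subfield F} {P : W.Point} (h : In M P) : In M (-P) := by
  rcases h with rfl | ⟨x, y, h1, hx, hy⟩
  · exact Or.inl (by simp)
  · exact Or.inr ⟨x, -y, h1.neg hW, hx, neg_mem hy⟩

theorem In.add (hW : IsB W β) {M : Subfield F} {P Q : W.Point} (hP : In M P) (hQ : In M Q) :
    In M (P + Q) := by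
  rcases add_cases hW P Q with h | h | h | ⟨x₁, y₁, x₂, y₂, ℓ, h1, h2, h3, h4⟩
  · rw [h, zero_add]
    exact hQ
  · rw [h, add_zero]
    exact hP
  · exact Or.inl h
  · rcases hP with rfl | ⟨x, y, h1', hx, hy⟩
    · exact absurd rfl h1.ne_zero
    obtain ⟨rfl, rfl⟩ := h1.inj h1'
    rcases hQ with rfl | ⟨x, y, h2', hx', hy'⟩
    · exact absurd rfl h2.ne_zero
    obtain ⟨rfl, rfl⟩ := h2.inj h2'
    have hℓ : ℓ ∈ M := by
      rcases h4 with rfl | rfl
      · exact div_mem (sub_mem hy hy') (sub_mem hx hx')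
      · exact div_mem (mul_mem (by exact_mod_cast natCast_mem M 3) (pow_mem hx 2))
          (mul_mem (by exact_mod_cast natCast_mem M 2) hy)
    have hX : ℓ ^ 2 - x₁ - x₂ ∈ M := sub_mem (sub_mem (pow_mem hℓ 2) hx) hx'
    exact Or.inr ⟨_, _, h3, hX, neg_mem (add_mem (mul_mem hℓ (sub_mem hX hx)) hy)⟩

theorem In.coords {M : Subfield F} {P : W.Point} (h : In M P) {x y : F} (h1 : At P x y) :
    x ∈ M ∧ y ∈ M := by
  rcases h with rfl | ⟨x', y', h2, hx, hy⟩
  · exact absurd rfl h1.ne_zero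
  · obtain ⟨rfl, rfl⟩ := h1.inj h2
    exact ⟨hx, hy⟩

theorem dbl_formula {x y ℓ : F} (h : y ^ 2 = x ^ 3 + β) (hy : 2 * y ≠ 0)
    (hℓ : ℓ = 3 * x ^ 2 / (2 * y)) :
    ℓ ^ 2 - x - x = x * (x ^ 3 - 8 * β) / (4 * (x ^ 3 + β)) := by
  have h2 : (2 : F) ≠ 0 := left_ne_zero_of_mul hy
  have h3 : y ≠ 0 := right_ne_zero_of_mul hy
  have h4 : (4 : F) ≠ 0 := by
    have : (4 : F) = 2 * 2 := by norm_num
    rw [this]
    exact mul_ne_zero h2 h2
  rw [← h, hℓ, eq_div_iff (mul_ne_zero h4 (pow_ne_zero 2 h3))]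
  have h5 : (3 * x ^ 2 / (2 * y)) ^ 2 * (4 * y ^ 2) = 9 * x ^ 4 := by
    field_simp
    ring
  have h6 : β = y ^ 2 - x ^ 3 := by linear_combination -h
  rw [h6]
  linear_combination h5

end general

section sizes

variable {K : Type u} [Field K] [DecidableEq (Rat3 K)] {W : WeierstrassCurve.Affine (Rat3 K)}
  {β : Rat3 K}

/-- the coordinates of `P` have sizes at most `d` and `e` -/
def PSz (P : W.Point) (d e : ℕ) : Prop := P = 0 ∨ ∃ x y, At P x y ∧ Sz x d ∧ Sz y e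

theorem PSz.mono {P : W.Point} {d e d' e' : ℕ} (h : PSz P d e) (hd : d ≤ d') (he : e ≤ e') :
    PSz P d' e' := by
  rcases h with h | ⟨x, y, h1, h2, h3⟩
  · exact Or.inl h
  · exact Or.inr ⟨x, y, h1, h2.mono hd, h3.mono he⟩

theorem PSz.neg (hW : IsB W β) {P : W.Point} {d e : ℕ} (h : PSz P d e) : PSz (-P) d e := by
  rcases h with rfl | ⟨x, y, h1, h2, h3⟩
  · exact Or.inl (by simp)
  · exact Or.inr ⟨x, -y, h1.neg hW, h2, h3.neg⟩

theorem PSz.add (hW : IsB W β) {P Q : W.Point} {d e : ℕ} (hP : PSz P d d) (hQ : PSz Q e e) :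
    PSz (P + Q) (12 * (d + e)) (12 * (d + e)) := by
  rcases add_cases hW P Q with h | h | h | ⟨x₁, y₁, x₂, y₂, ℓ, h1, h2, h3, h4⟩
  · rw [h, zero_add]
    exact hQ.mono (by omega) (by omega)
  · rw [h, add_zero]
    exact hP.mono (by omega) (by omega)
  · exact Or.inl h
  · rcases hP with rfl | ⟨x, y, h1', hx, hy⟩
    · exact absurd rfl h1.ne_zero
    obtain ⟨rfl, rfl⟩ := h1.inj h1'
    rcases hQ with rfl | ⟨x, y, h2', hx', hy'⟩
    · exact absurd rfl h2.ne_zero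
    obtain ⟨rfl, rfl⟩ := h2.inj h2'
    have hℓ : Sz ℓ (3 * d + 2 * e) := by
      rcases h4 with rfl | rfl
      · exact ((hy.sub hy').div (hx.sub hx')).mono (by omega)
      · exact ((Sz.three.mul (hx.pow 2)).div (Sz.two.mul hy)).mono (by omega)
    have hℓ2 : Sz (ℓ ^ 2) (4 * d + 4 * e + 2 * d) := (hℓ.pow 2).mono (by omega)
    have hX : Sz (ℓ ^ 2 - x₁ - x₂) (7 * d + 5 * e) := ((hℓ2.sub hx).sub hx').mono (by omega)
    refine Or.inr ⟨_, _, h3, hX.mono (by omega), ?_⟩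
    exact (((hℓ.mul (hX.sub hx)).add hy).neg).mono (by omega)

/-- size of the abscissa of the double -/
theorem Sz.dbl {x : Rat3 K} {d H : ℕ} (hx : Sz x d) (hβ : Sz β H) :
    Sz (x * (x ^ 3 - 8 * β) / (4 * (x ^ 3 + β))) (4 * d + H) := by
  obtain ⟨A, B, h0, h1, h2, rfl⟩ := hx
  obtain ⟨A', B', h0', h1', h2', rfl⟩ := hβ
  by_cases hz : (4 : Rat3 K) * ((io A / io B) ^ 3 + io A' / io B') = 0
  · rw [hz, div_zero]
    exact Sz.zero.mono (Nat.zero_le _)
  have e1 := io_ne h0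
  have e2 := io_ne h0'
  have key : (io A / io B) * ((io A / io B) ^ 3 - 8 * (io A' / io B')) /
      (4 * ((io A / io B) ^ 3 + io A' / io B')) =
      io (A * (B' * A ^ 3 - 8 * (A' * B ^ 3))) / io (4 * (B * (B' * A ^ 3 + A' * B ^ 3))) := by
    have e3 : io (4 * (B * (B' * A ^ 3 + A' * B ^ 3))) =
        (4 * ((io A / io B) ^ 3 + io A' / io B')) * (io B ^ 4 * io B') := by
      simp only [map_mul, map_add, map_pow, map_ofNat]
      field_simp
    have e4 : io (A * (B' * A ^ 3 - 8 * (A' * B ^ 3))) =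
        (io A / io B) * ((io A / io B) ^ 3 - 8 * (io A' / io B')) * (io B ^ 4 * io B') := by
      simp only [map_mul, map_sub, map_pow, map_ofNat]
      field_simp
    rw [e3, e4, mul_div_mul_right]
    exact mul_ne_zero (pow_ne_zero _ e1) e2
  rw [key]
  have hne : (4 * (B * (B' * A ^ 3 + A' * B ^ 3)) : Pol K) ≠ 0 := by
    intro h
    have e3 : io (4 * (B * (B' * A ^ 3 + A' * B ^ 3))) =
        (4 * ((io A / io B) ^ 3 + io A' / io B')) * (io B ^ 4 * io B') := by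
      simp only [map_mul, map_add, map_pow, map_ofNat]
      field_simp
    rw [h, map_zero] at e3
    exact mul_ne_zero hz (mul_ne_zero (pow_ne_zero _ e1) e2) e3.symm
  have num : ∀ (n : ℕ) (P : Pol K), ((n : Pol K) * P).totalDegree ≤ P.totalDegree := by
    intro n P
    refine (totalDegree_mul _ _).trans ?_
    rw [← map_natCast (C : K →+* Pol K) n, totalDegree_C, zero_add]
  have p3 : ∀ P Q : Pol K, (P * Q ^ 3).totalDegree ≤ P.totalDegree + 3 * Q.totalDegree :=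
    fun P Q => (totalDegree_mul _ _).trans (Nat.add_le_add_left (totalDegree_pow _ _) _)
  refine ⟨_, _, hne, ?_, ?_, rfl⟩
  · refine (totalDegree_mul _ _).trans ?_
    have : (B' * A ^ 3 - 8 * (A' * B ^ 3)).totalDegree ≤ 3 * d + H := by
      refine (totalDegree_sub _ _).trans (max_le ?_ ?_)
      · refine (p3 _ _).trans ?_
        omega
      · have := num 8 (A' * B ^ 3)
        push_cast at this
        refine this.trans ((p3 _ _).trans ?_)
        omega
    omega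
  · have h5 := num 4 (B * (B' * A ^ 3 + A' * B ^ 3))
    push_cast at h5
    refine h5.trans ((totalDegree_mul _ _).trans ?_)
    have : (B' * A ^ 3 + A' * B ^ 3).totalDegree ≤ 3 * d + H := by
      refine (totalDegree_add _ _).trans (max_le ?_ ?_)
      · refine (p3 _ _).trans ?_
        omega
      · refine (p3 _ _).trans ?_
        omega
    omega

theorem PSz.dbl (hW : IsB W β) {P : W.Point} {d e H : ℕ} (hβ : Sz β H) (hP : PSz P d e) :
    PSz (P + P) (4 * d + H) (7 * d + 2 * e + H) := by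
  rcases hP with rfl | ⟨x, y, h1, hx, hy⟩
  · exact Or.inl (by simp)
  by_cases h2 : 2 * y = 0
  · left
    have h3 : y = -y := by linear_combination h2
    have h4 := h1.neg hW
    rw [← h3] at h4
    have h5 : P = -P := h1.eq h4
    rw [add_eq_zero_iff_eq_neg]
    exact h5
  · right
    obtain ⟨ℓ, hℓ⟩ : ∃ ℓ : Rat3 K, ℓ = 3 * x ^ 2 / (2 * y) := ⟨_, rfl⟩
    have h3 := add_self_at hW h1 h2 ℓ hℓ
    have h4 := dbl_formula (h1.eqn hW) h2 hℓ
    have sX : Sz (ℓ ^ 2 - x - x) (4 * d + H) := by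
      rw [h4]
      exact hx.dbl hβ
    have sℓ : Sz ℓ (2 * d + e) := by
      rw [hℓ]
      exact ((Sz.three.mul (hx.pow 2)).div (Sz.two.mul hy)).mono (by omega)
    refine ⟨_, _, h3, sX, ?_⟩
    exact (((sℓ.mul (sX.sub hx)).add hy).neg).mono (by omega)

/-- the points `2 ^ k P` -/
theorem PSz.two_pow (hW : IsB W β) {P : W.Point} {M H : ℕ} (hβ : Sz β H)
    (hP : PSz P M M) (k : ℕ) :
    ∃ d e, PSz ((2 ^ k : ℕ) • P) d e ∧ d + H ≤ (M + H) * 4 ^ k ∧ e ≤ 4 * (M + H) * 4 ^ k := by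
  induction k with
  | zero =>
    refine ⟨M, M, by simpa using hP, by omega, by omega⟩
  | succ k ih =>
    obtain ⟨d, e, h1, h2, h3⟩ := ih
    refine ⟨4 * d + H, 7 * d + 2 * e + H, ?_, ?_, ?_⟩
    · rw [pow_succ, mul_two, add_smul]
      exact h1.dbl hW hβ
    · rw [pow_succ]
      nlinarith
    · rw [pow_succ]
      nlinarith

theorem PSz.two_pow' (hW : IsB W β) {P : W.Point} {M H : ℕ} (hβ : Sz β H)
    (hP : PSz P M M) (k : ℕ) :
    PSz ((2 ^ k : ℕ) • P) (4 * (M + H) * 4 ^ k) (4 * (M + H) * 4 ^ k) := by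
  obtain ⟨d, e, h1, h2, h3⟩ := PSz.two_pow hW hβ hP k
  refine h1.mono ?_ h3
  nlinarith

end sizes

end Pool.Agent.W480.X6
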