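import Pool.Agent.W480.X6.Curve

set_option autoImplicit false
set_option linter.unusedSectionVars false

/-!
The explicit rational functions defining the map.
-/

namespace Pool.Agent.W480.X6

open MvPolynomial WeierstrassCurve

universe u

section formulas

variable {F : Type u} [Field F]

/-- `λP - Q` with `P = p³ - 1`, `Q = q³ - 1` -/
def eE (p q l : F) : F := l * (p ^ 3 - 1) - (q ^ 3 - 1)

/-- `Q - λ²P` -/
def dD (p q l : F) : F := (q ^ 3 - 1) - l ^ 2 * (p ^ 3 - 1)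

/-- `ρ = 2 (λP - Q) / (Q - λ²P)` -/
def rho (p q l : F) : F := 2 * eE p q l / dD p q l

/-- the parameter `c` -/
def cc (p q l : F) : F := dD p q l ^ 2 / (4 * (l * ((1 - l) * eE p q l)))

theorem curve_eqs {p q l : F} (h2 : (2 : F) ≠ 0) (hl : l ≠ 0) (hl1 : 1 - l ≠ 0)
    (hE : eE p q l ≠ 0) (hD : dD p q l ≠ 0) :
    cc p q l * ((1 + rho p q l) ^ 2 - 1) = p ^ 3 - 1 ∧
    cc p q l * ((1 + l * rho p q l) ^ 2 - 1) = q ^ 3 - 1 := by
  have h4 : (4 : F) ≠ 0 := by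
    have : (4 : F) = 2 * 2 := by norm_num
    rw [this]
    exact mul_ne_zero h2 h2
  have e1 : dD p q l + eE p q l = l * (1 - l) * (p ^ 3 - 1) := by
    simp only [dD, eE]
    ring
  have e2 : dD p q l + l * eE p q l = (1 - l) * (q ^ 3 - 1) := by
    simp only [dD, eE]
    ring
  simp only [cc, rho]
  constructor
  · have : p ^ 3 - 1 = (dD p q l + eE p q l) / (l * (1 - l)) := by
      rw [e1]
      field_simp
    rw [this]
    field_simp
    ring
  · have : q ^ 3 - 1 = (dD p q l + l * eE p q l) / (1 - l) := by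
      rw [e2]
      field_simp
    rw [this]
    field_simp
    ring

theorem recover {p q r s l c : F} (h2 : (2 : F) ≠ 0) (hc : c ≠ 0) (hr : r - 1 ≠ 0)
    (hl : l ≠ 0) (hl1 : 1 - l ≠ 0) (hs : s - 1 = l * (r - 1)) (h1 : c * (r ^ 2 - 1) = p ^ 3 - 1)
    (h3 : c * (s ^ 2 - 1) = q ^ 3 - 1) :
    rho p q l = r - 1 ∧ cc p q l = c ∧ dD p q l ≠ 0 ∧ eE p q l ≠ 0 := by
  have h4 : (4 : F) ≠ 0 := by
    have : (4 : F) = 2 * 2 := by norm_num
    rw [this]
    exact mul_ne_zero h2 h2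
  have hs' : s = 1 + l * (r - 1) := by linear_combination hs
  have e1 : eE p q l = c * l * (r - 1) ^ 2 * (1 - l) := by
    simp only [eE]
    rw [← h1, ← h3, hs']
    ring
  have e2 : dD p q l = 2 * (c * l * (r - 1) * (1 - l)) := by
    simp only [dD]
    rw [← h1, ← h3, hs']
    ring
  have n1 : eE p q l ≠ 0 := by
    rw [e1]
    exact mul_ne_zero (mul_ne_zero (mul_ne_zero hc hl) (pow_ne_zero 2 hr)) hl1
  have n2 : dD p q l ≠ 0 := by
    rw [e2]
    exact mul_ne_zero h2 (mul_ne_zero (mul_ne_zero (mul_ne_zero hc hl) hr) hl1)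
  refine ⟨?_, ?_, n2, n1⟩
  · rw [rho, e1, e2]
    field_simp
  · rw [cc, e1, e2]
    field_simp
    ring

theorem map_eE {G : Type*} [Field G] (φ : F →+* G) (p q l : F) :
    φ (eE p q l) = eE (φ p) (φ q) (φ l) := by
  simp only [eE, map_sub, map_mul, map_pow, map_one]

theorem map_dD {G : Type*} [Field G] (φ : F →+* G) (p q l : F) :
    φ (dD p q l) = dD (φ p) (φ q) (φ l) := by
  simp only [dD, map_sub, map_mul, map_pow, map_one]

theorem map_rho {G : Type*} [Field G] (φ : F →+* G) (p q l : F) :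
    φ (rho p q l) = rho (φ p) (φ q) (φ l) := by
  simp only [rho, map_div₀, map_mul, map_ofNat, map_eE, map_dD]

theorem map_cc {G : Type*} [Field G] (φ : F →+* G) (p q l : F) :
    φ (cc p q l) = cc (φ p) (φ q) (φ l) := by
  simp only [cc, map_div₀, map_mul, map_pow, map_sub, map_one, map_ofNat, map_eE, map_dD]

end formulas

variable (K : Type u) [Field K]

/-- the coordinate `p` -/
noncomputable def pp : Rat3 K := io (X 0)
/-- the coordinate `q` -/
noncomputable def qq : Rat3 K := io (X 1)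
/-- the coordinate `λ` -/
noncomputable def ll : Rat3 K := io (X 2)
/-- the ordinate `r` -/
noncomputable def rr : Rat3 K := 1 + rho (pp K) (qq K) (ll K)
/-- the ordinate `s` -/
noncomputable def ss : Rat3 K := 1 + ll K * rho (pp K) (qq K) (ll K)
/-- the parameter `c` -/
noncomputable def c0 : Rat3 K := cc (pp K) (qq K) (ll K)
/-- the constant coefficient of the Weierstrass equation -/
noncomputable def bet : Rat3 K := (c0 K - 1) * c0 K ^ 3
/-- slope of the line through `R₂` and `R₁` -/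
noncomputable def l1 : Rat3 K :=
  (c0 K ^ 2 * rr K - c0 K ^ 2) / (c0 K * pp K - c0 K)
/-- abscissa of `R₂ + R₁` -/
noncomputable def x2 : Rat3 K := l1 K ^ 2 - c0 K * pp K - c0 K
/-- ordinate of `R₂ + R₁` -/
noncomputable def y2 : Rat3 K := -(l1 K * (x2 K - c0 K * pp K) + c0 K ^ 2 * rr K)
/-- slope of the line through `R₃` and `R₂` -/
noncomputable def l2 : Rat3 K :=
  (c0 K ^ 2 * ss K - c0 K ^ 2 * rr K) / (c0 K * qq K - c0 K * pp K)
/-- abscissa of `R₃ + R₂` -/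
noncomputable def x3 : Rat3 K := l2 K ^ 2 - c0 K * qq K - c0 K * pp K
/-- ordinate of `R₃ + R₂` -/
noncomputable def y3 : Rat3 K := -(l2 K * (x3 K - c0 K * qq K) + c0 K ^ 2 * ss K)
/-- image of `p` -/
noncomputable def pn : Rat3 K := x2 K / c0 K
/-- image of `r` -/
noncomputable def rn : Rat3 K := y2 K / c0 K ^ 2
/-- image of `q` -/
noncomputable def qn : Rat3 K := x3 K / c0 K
/-- image of `s` -/
noncomputable def sn : Rat3 K := y3 K / c0 K ^ 2
/-- image of `λ` -/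
noncomputable def ln : Rat3 K := (sn K - 1) / (rn K - 1)

section values

variable [CharZero K]

/-- the test point -/
def tp : Fin 3 → K := ![2, 3, 2]

theorem ev_pp : Ev (tp K) (pp K) 2 := Ev.X 0
theorem ev_qq : Ev (tp K) (qq K) 3 := Ev.X 1
theorem ev_ll : Ev (tp K) (ll K) 2 := Ev.X 2

theorem ev_eE : Ev (tp K) (eE (pp K) (qq K) (ll K)) (-12) :=
  (((ev_ll K).mul (((ev_pp K).pow 3).sub Ev.one)).sub (((ev_qq K).pow 3).sub Ev.one)).cast
    (by norm_num)

theorem ev_dD : Ev (tp K) (dD (pp K) (qq K) (ll K)) (-2) :=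
  ((((ev_qq K).pow 3).sub Ev.one).sub (((ev_ll K).pow 2).mul
    (((ev_pp K).pow 3).sub Ev.one))).cast (by norm_num)

theorem ev_rho : Ev (tp K) (rho (pp K) (qq K) (ll K)) 12 :=
  ((Ev.two.mul (ev_eE K)).div (ev_dD K) (by norm_num)).cast (by norm_num)

theorem ev_rr : Ev (tp K) (rr K) 13 := (Ev.one.add (ev_rho K)).cast (by norm_num)

theorem ev_ss : Ev (tp K) (ss K) 25 := (Ev.one.add ((ev_ll K).mul (ev_rho K))).cast (by norm_num)

theorem ev_c0 : Ev (tp K) (c0 K) (1 / 24) :=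
  (((ev_dD K).pow 2).div (Ev.four.mul ((ev_ll K).mul ((Ev.one.sub (ev_ll K)).mul (ev_eE K))))
    (by norm_num)).cast (by norm_num)

theorem ev_l1 : Ev (tp K) (l1 K) (1 / 2) :=
  (((((ev_c0 K).pow 2).mul (ev_rr K)).sub ((ev_c0 K).pow 2)).div
    (((ev_c0 K).mul (ev_pp K)).sub (ev_c0 K)) (by norm_num)).cast (by norm_num)

theorem ev_x2 : Ev (tp K) (x2 K) (1 / 8) :=
  ((((ev_l1 K).pow 2).sub ((ev_c0 K).mul (ev_pp K))).sub (ev_c0 K)).cast (by norm_num)

theorem ev_y2 : Ev (tp K) (y2 K) (-25 / 576) :=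
  ((((ev_l1 K).mul ((ev_x2 K).sub ((ev_c0 K).mul (ev_pp K)))).add
    (((ev_c0 K).pow 2).mul (ev_rr K))).neg).cast (by norm_num)

theorem ev_l2 : Ev (tp K) (l2 K) (1 / 2) :=
  (((((ev_c0 K).pow 2).mul (ev_ss K)).sub (((ev_c0 K).pow 2).mul (ev_rr K))).div
    (((ev_c0 K).mul (ev_qq K)).sub ((ev_c0 K).mul (ev_pp K))) (by norm_num)).cast (by norm_num)

theorem ev_x3 : Ev (tp K) (x3 K) (1 / 24) :=
  ((((ev_l2 K).pow 2).sub ((ev_c0 K).mul (ev_qq K))).sub ((ev_c0 K).mul (ev_pp K))).cast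
    (by norm_num)

theorem ev_y3 : Ev (tp K) (y3 K) (-1 / 576) :=
  ((((ev_l2 K).mul ((ev_x3 K).sub ((ev_c0 K).mul (ev_qq K)))).add
    (((ev_c0 K).pow 2).mul (ev_ss K))).neg).cast (by norm_num)

theorem ev_rn : Ev (tp K) (rn K) (-25) :=
  ((ev_y2 K).div ((ev_c0 K).pow 2) (by norm_num)).cast (by norm_num)

theorem ev_sn : Ev (tp K) (sn K) (-1) :=
  ((ev_y3 K).div ((ev_c0 K).pow 2) (by norm_num)).cast (by norm_num)

theorem ev_ln : Ev (tp K) (ln K) (1 / 13) :=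
  (((ev_sn K).sub Ev.one).div ((ev_rn K).sub Ev.one) (by norm_num)).cast (by norm_num)

theorem ne_of_ev {z : Rat3 K} {v : K} (h : Ev (tp K) z v) (hv : v ≠ 0) : z ≠ 0 :=
  h.ne Ev.zero hv

theorem two_ne : (2 : Rat3 K) ≠ 0 := ne_of_ev K Ev.two (by norm_num)
theorem ll_ne : ll K ≠ 0 := ne_of_ev K (ev_ll K) (by norm_num)
theorem ll_ne1 : 1 - ll K ≠ 0 := ne_of_ev K (Ev.one.sub (ev_ll K)) (by norm_num)
theorem eE_ne : eE (pp K) (qq K) (ll K) ≠ 0 := ne_of_ev K (ev_eE K) (by norm_num)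
theorem dD_ne : dD (pp K) (qq K) (ll K) ≠ 0 := ne_of_ev K (ev_dD K) (by norm_num)
theorem c0_ne : c0 K ≠ 0 := ne_of_ev K (ev_c0 K) (by norm_num)
theorem rr_ne : rr K ≠ 0 := ne_of_ev K (ev_rr K) (by norm_num)
theorem rr_ne1 : rr K - 1 ≠ 0 := ne_of_ev K ((ev_rr K).sub Ev.one) (by norm_num)
theorem ss_ne : ss K ≠ 0 := ne_of_ev K (ev_ss K) (by norm_num)
theorem pp_ne1 : pp K - 1 ≠ 0 := ne_of_ev K ((ev_pp K).sub Ev.one) (by norm_num)
theorem qp_ne : qq K - pp K ≠ 0 := ne_of_ev K ((ev_qq K).sub (ev_pp K)) (by norm_num)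
theorem rn_ne1 : rn K - 1 ≠ 0 := ne_of_ev K ((ev_rn K).sub Ev.one) (by norm_num)
theorem ln_ne : ln K ≠ 0 := ne_of_ev K (ev_ln K) (by norm_num)
theorem ln_ne1 : 1 - ln K ≠ 0 := ne_of_ev K (Ev.one.sub (ev_ln K)) (by norm_num)

end values

end Pool.Agent.W480.X6
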