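import Pool.Agent.W480.X6.Fin

set_option autoImplicit false

/-!
The final form of the growth statement.
-/

namespace Pool.Agent.W480.X6

open MvPolynomial Pool.Agent.W480.DD Filter Topology

universe u

/-- `deg (f^n) ≍ n^ℓ δ^n` with `δ` the dynamical degree of `f`: there are positive constants
`c₁, c₂` with `c₁ n^ℓ δ^n ≤ deg (f^n) ≤ c₂ n^ℓ δ^n` for all large `n`. -/
def HasGrowth {K : Type u} [Field K] {N : ℕ} (f : RatMap K N) (ℓ : ℕ) : Prop :=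
  ∃ (e : ℕ → ℕ) (δ : ℝ), IsDegSeq f e ∧
    Tendsto (fun n : ℕ => (e n : ℝ) ^ ((1 : ℝ) / n)) atTop (𝓝 δ) ∧
    ∃ (c₁ c₂ : ℝ) (n₀ : ℕ), 0 < c₁ ∧ 0 < c₂ ∧ ∀ n ≥ n₀,
      c₁ * ((n : ℝ) ^ ℓ * δ ^ n) ≤ e n ∧ (e n : ℝ) ≤ c₂ * ((n : ℝ) ^ ℓ * δ ^ n)

theorem two_pow_large (A : ℝ) (m₀ : ℕ) : ∃ m ≥ m₀, A < 2 ^ (m + 1) := by
  have h : Tendsto (fun m : ℕ => (2 : ℝ) ^ (m + 1)) atTop atTop :=
    (tendsto_pow_atTop_atTop_of_one_lt (by norm_num : (1 : ℝ) < 2)).comp (tendsto_add_atTop_nat 1)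
  obtain ⟨m, h1, h2⟩ := ((h.eventually_gt_atTop A).and (eventually_ge_atTop m₀)).exists
  exact ⟨m, h2, h1⟩

theorem final (K : Type u) [Field K] [CharZero K] : ∃ f : RatMap K 3, IsBirational f ∧
    f.IsDynamicalDegree 1 ∧
    (∃ (e : ℕ → ℕ) (c C : ℝ), IsDegSeq f e ∧ 0 < c ∧ 0 < C ∧ ∀ k : ℕ, 1 ≤ k →
      c * ((2 : ℝ) ^ k) ^ 4 ≤ e (2 ^ k) ∧ (e (2 ^ k) : ℝ) ≤ C * ((2 : ℝ) ^ k) ^ 4) ∧
    ∀ ℓ : ℕ, ℓ ≠ 4 → ¬ HasGrowth f ℓ := by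
  obtain ⟨f, e, hdom, he, huniq, h1, hs, ⟨C, hC⟩, ⟨C', hC'⟩⟩ := main_map K
  have hlim := tendsto_one e h1 hs C' hC'
  have hCpos : 1 ≤ C := by
    have := hC 0
    by_contra hcon
    have h0 : C = 0 := by omega
    rw [h0] at this
    simp at this
  have hC'pos : 1 ≤ C' := by
    have := (h1 _).trans (hC' 0)
    simpa using this
  -- the two bounds
  have hlow : ∀ m : ℕ, 16 ^ m ≤ 4 * C ^ 2 * e (2 ^ (m + 1)) := by
    intro m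
    have k1 := hC m
    have k2 := h1 (2 ^ (m + 1))
    have k3 : 16 ^ m = 4 ^ m * 4 ^ m := by
      rw [← mul_pow]
      norm_num
    by_cases hcase : 2 * C ≤ 4 ^ m
    · have k4 : 2 * C * 4 ^ m ≤ 16 ^ m := by
        rw [k3]
        exact Nat.mul_le_mul_right _ hcase
      have k5 : 16 ^ m ≤ 2 * (C * e (2 ^ (m + 1))) := by nlinarith
      calc 16 ^ m ≤ 2 * (C * e (2 ^ (m + 1))) := k5
        _ ≤ 4 * C ^ 2 * e (2 ^ (m + 1)) := by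
          have : 2 * C ≤ 4 * C ^ 2 := by nlinarith
          calc 2 * (C * e (2 ^ (m + 1))) = 2 * C * e (2 ^ (m + 1)) := by ring
            _ ≤ 4 * C ^ 2 * e (2 ^ (m + 1)) := Nat.mul_le_mul_right _ this
    · push Not at hcase
      have k4 : 16 ^ m ≤ 4 * C ^ 2 := by
        rw [k3]
        calc 4 ^ m * 4 ^ m ≤ (2 * C) * (2 * C) := Nat.mul_le_mul hcase.le hcase.le
          _ = 4 * C ^ 2 := by ring
      calc 16 ^ m ≤ 4 * C ^ 2 * 1 := by omega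
        _ ≤ 4 * C ^ 2 * e (2 ^ (m + 1)) := Nat.mul_le_mul_left _ k2
  have hpow : ∀ m : ℕ, ((2 : ℝ) ^ (m + 1)) ^ 4 = 16 * 16 ^ m := by
    intro m
    rw [← pow_mul, mul_comm, pow_mul, pow_succ]
    norm_num
    ring
  have hlowR : ∀ m : ℕ, (1 / (64 * C ^ 2) : ℝ) * ((2 : ℝ) ^ (m + 1)) ^ 4 ≤ e (2 ^ (m + 1)) := by
    intro m
    have k : (16 : ℝ) ^ m ≤ 4 * C ^ 2 * e (2 ^ (m + 1)) := by exact_mod_cast hlow m
    have hc : (0 : ℝ) < C := by exact_mod_cast hCpos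
    rw [hpow, one_div, inv_mul_le_iff₀ (by positivity)]
    linarith
  have hupR : ∀ m : ℕ, (e (2 ^ (m + 1)) : ℝ) ≤ C' * ((2 : ℝ) ^ (m + 1)) ^ 4 := by
    intro m
    have k : (e (2 ^ (m + 1)) : ℝ) ≤ C' * 16 ^ m := by exact_mod_cast hC' m
    rw [hpow]
    have : (0 : ℝ) ≤ C' * 16 ^ m := by positivity
    linarith
  have hcpos : (0 : ℝ) < 1 / (64 * C ^ 2) := by
    have hc : (0 : ℝ) < C := by exact_mod_cast hCpos
    positivity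
  have hC'R : (0 : ℝ) < C' := by exact_mod_cast hC'pos
  refine ⟨f, hdom, ⟨e, he, hlim⟩, ⟨e, _, _, he, hcpos, hC'R, ?_⟩, ?_⟩
  · intro k hk
    obtain ⟨m, rfl⟩ := Nat.exists_eq_add_of_le' hk
    exact ⟨hlowR m, hupR m⟩
  · rintro ℓ hℓ ⟨e', δ, he', hδ, c₁, c₂, n₀, hc₁, hc₂, hgrow⟩
    have hee : e' = e := huniq e' he'
    subst hee
    have hδ1 : δ = 1 := tendsto_nhds_unique hδ hlim
    subst hδ1
    have hbig : ∀ m ≥ n₀, n₀ ≤ 2 ^ (m + 1) := by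
      intro m hm
      have := Nat.lt_two_pow_self (n := m + 1)
      omega
    rcases lt_or_gt_of_ne hℓ with hlt | hgt
    · -- `ℓ ≤ 3`
      obtain ⟨m, hm, hA⟩ := two_pow_large (c₂ / (1 / (64 * C ^ 2) : ℝ)) n₀
      have k1 := hlowR m
      have k2 := (hgrow (2 ^ (m + 1)) (hbig m hm)).2
      push_cast at k2
      rw [one_pow, mul_one] at k2
      have k3 : ((2 : ℝ) ^ (m + 1)) ^ ℓ ≤ ((2 : ℝ) ^ (m + 1)) ^ 3 :=
        pow_le_pow_right₀ (one_le_pow₀ (by norm_num)) (by omega)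
      have k4 : (0 : ℝ) < ((2 : ℝ) ^ (m + 1)) ^ 3 := by positivity
      rw [div_lt_iff₀ hcpos] at hA
      have k5 : c₂ * ((2 : ℝ) ^ (m + 1)) ^ 3 < (1 / (64 * C ^ 2) : ℝ) *
          ((2 : ℝ) ^ (m + 1)) ^ 4 := by
        have := mul_lt_mul_of_pos_right hA k4
        calc c₂ * ((2 : ℝ) ^ (m + 1)) ^ 3 < 2 ^ (m + 1) * (1 / (64 * C ^ 2)) *
              ((2 : ℝ) ^ (m + 1)) ^ 3 := this
          _ = (1 / (64 * C ^ 2) : ℝ) * ((2 : ℝ) ^ (m + 1)) ^ 4 := by ring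
      have k6 : c₂ * ((2 : ℝ) ^ (m + 1)) ^ ℓ ≤ c₂ * ((2 : ℝ) ^ (m + 1)) ^ 3 :=
        mul_le_mul_of_nonneg_left k3 hc₂.le
      linarith
    · obtain ⟨m, hm, hA⟩ := two_pow_large (C' / c₁ : ℝ) n₀
      have k1 := hupR m
      have k2 := (hgrow (2 ^ (m + 1)) (hbig m hm)).1
      push_cast at k2
      rw [one_pow, mul_one] at k2
      have k3 : ((2 : ℝ) ^ (m + 1)) ^ 5 ≤ ((2 : ℝ) ^ (m + 1)) ^ ℓ :=
        pow_le_pow_right₀ (one_le_pow₀ (by norm_num)) (by omega)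
      have k4 : (0 : ℝ) < ((2 : ℝ) ^ (m + 1)) ^ 4 := by positivity
      rw [div_lt_iff₀ hc₁] at hA
      have k5 : C' * ((2 : ℝ) ^ (m + 1)) ^ 4 < c₁ * ((2 : ℝ) ^ (m + 1)) ^ 5 := by
        have := mul_lt_mul_of_pos_right hA k4
        calc C' * ((2 : ℝ) ^ (m + 1)) ^ 4 < 2 ^ (m + 1) * c₁ * ((2 : ℝ) ^ (m + 1)) ^ 4 := this
          _ = c₁ * ((2 : ℝ) ^ (m + 1)) ^ 5 := by ring
      have k6 : c₁ * ((2 : ℝ) ^ (m + 1)) ^ 5 ≤ c₁ * ((2 : ℝ) ^ (m + 1)) ^ ℓ :=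
        mul_le_mul_of_nonneg_left k3 hc₁.le
      linarith

end Pool.Agent.W480.X6
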