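import Pool.Agent.W480.X6.Bir

set_option autoImplicit false
set_option linter.unusedSectionVars false

/-!
The degree growth of the map.
-/

namespace Pool.Agent.W480.X6

open MvPolynomial Pool.Agent.W480.DD Pool.Agent.Helper993.CS Filter Topology

universe u

variable {K : Type u} [Field K]

theorem subst_hom (f : RatMap K 3) (n : ℕ) : ∀ i, (f.subst n i).IsHomogeneous (f.degree ^ n) := by
  induction n with
  | zero =>
    intro i
    rw [pow_zero]
    exact isHomogeneous_X _ _
  | succ n ih =>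
    intro i
    rw [pow_succ]
    exact (f.homogeneous i).aeval (f.subst n) ih

theorem subst_add (f : RatMap K 3) (m n : ℕ) (i : Fin (3 + 1)) :
    f.subst (m + n) i = bind₁ (f.subst n) (f.subst m i) := by
  induction m generalizing i with
  | zero =>
    rw [zero_add]
    show _ = bind₁ (f.subst n) (X i)
    rw [bind₁_X_right]
  | succ m ih =>
    rw [Nat.add_right_comm]
    show bind₁ (f.subst (m + n)) (f.poly i) = bind₁ (f.subst n) (bind₁ (f.subst m) (f.poly i))
    rw [bind₁_bind₁]
    congr 2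
    funext j
    exact ih j

theorem exists_iterate (f : RatMap K 3) (n : ℕ) (h : f.subst n 0 ≠ 0) :
    ∃ g : RatMap K 3, f.IsIterate n g := by
  obtain ⟨d, H, G, hH, hG, hGd, hGc⟩ := redDeg_exists _ _ (subst_hom f n) h
  exact ⟨⟨G, d, hGd, hGc⟩, H, hH, hG⟩

theorem iterate_unique (f g g' : RatMap K 3) (n : ℕ) (h : f.subst n 0 ≠ 0)
    (hg : f.IsIterate n g) (hg' : f.IsIterate n g') : g.degree = g'.degree := by
  obtain ⟨c, hc, h1⟩ := hg
  obtain ⟨c', hc', h2⟩ := hg'
  exact redDeg_unique _ h _ _ ⟨c, g.poly, hc, h1, g.homogeneous, g.coprime⟩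
    ⟨c', g'.poly, hc', h2, g'.homogeneous, g'.coprime⟩

theorem degree_submul (f g g' g'' : RatMap K 3) (m n : ℕ) (h : f.subst (m + n) 0 ≠ 0)
    (hg : f.IsIterate n g) (hg' : f.IsIterate m g') (hg'' : f.IsIterate (m + n) g'') :
    g''.degree ≤ g.degree * g'.degree := by
  obtain ⟨c, hc, h1⟩ := hg
  obtain ⟨c', hc', h2⟩ := hg'
  obtain ⟨c'', hc'', h3⟩ := hg''
  have e1 : f.subst n = fun i => c * g.poly i := funext h1
  have e2 : ∀ i, f.subst (m + n) i =
      (bind₁ (f.subst n) c' * c ^ g'.degree) * bind₁ g.poly (g'.poly i) := by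
    intro i
    rw [subst_add, h2, map_mul, mul_assoc]
    congr 1
    rw [e1]
    exact ff_scale (g'.homogeneous i) c g.poly
  set H := bind₁ (f.subst n) c' * c ^ g'.degree with hH
  have hH0 : H ≠ 0 := by
    intro h0
    apply h
    rw [e2, h0, zero_mul]
  have hdvd : H ∣ c'' := red_assoc (P := fun i => c'' * g''.poly i) (fun i => rfl) g''.coprime H
    fun i => ⟨bind₁ g.poly (g'.poly i), by rw [← e2, h3]⟩
  obtain ⟨q, hq⟩ := hdvd
  have e3 : bind₁ g.poly (g'.poly 0) = q * g''.poly 0 := by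
    apply mul_left_cancel₀ hH0
    rw [← e2, h3, hq, mul_assoc]
  have e4 : bind₁ g.poly (g'.poly 0) ≠ 0 := by
    intro h0
    apply h
    rw [e2, h0, mul_zero]
  have e5 : (bind₁ g.poly (g'.poly 0)).IsHomogeneous (g.degree * g'.degree) :=
    (g'.homogeneous 0).aeval g.poly g.homogeneous
  have e6 : g''.poly 0 ≠ 0 := by
    intro h0
    apply e4
    rw [e3, h0, mul_zero]
  have e7 : g''.poly 0 ∣ bind₁ g.poly (g'.poly 0) := ⟨q, by rw [e3, mul_comm]⟩
  have e8 := totalDegree_le_of_dvd_of_isDomain e7 e4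
  rwa [e5.totalDegree e4, (g''.homogeneous 0).totalDegree e6] at e8

/-- `e n` is the degree of the `n`-th iterate of `f` -/
def IsDegSeq {N : ℕ} (f : RatMap K N) (e : ℕ → ℕ) : Prop :=
  ∀ n, ∃ g : RatMap K N, f.IsIterate n g ∧ g.degree = e n

/-- analytic part: a submultiplicative sequence with polynomial growth along the powers of two -/
theorem tendsto_one (e : ℕ → ℕ) (h1 : ∀ n, 1 ≤ e n) (hs : ∀ m n, e (m + n) ≤ e m * e n) (C : ℕ)
    (hC : ∀ m, e (2 ^ (m + 1)) ≤ C * 16 ^ m) :
    Tendsto (fun n : ℕ => (e n : ℝ) ^ ((1 : ℝ) / n)) atTop (𝓝 1) := by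
  have hpos : ∀ n, (0 : ℝ) < e n := fun n => by exact_mod_cast h1 n
  have hlog : ∀ n, 0 ≤ Real.log (e n) := fun n => Real.log_nonneg (by exact_mod_cast h1 n)
  have hsub : Subadditive (fun n => Real.log (e n)) := by
    intro m n
    rw [← Real.log_mul (hpos m).ne' (hpos n).ne']
    apply Real.log_le_log (hpos _)
    exact_mod_cast hs m n
  have hbdd : BddBelow (Set.range fun n : ℕ => Real.log (e n) / n) := by
    refine ⟨0, ?_⟩
    rintro _ ⟨n, rfl⟩
    exact div_nonneg (hlog n) (Nat.cast_nonneg n)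
  have hlim := hsub.tendsto_lim hbdd
  have hC0 : (0 : ℝ) < C := by
    have := (h1 _).trans (hC 0)
    simp only [pow_zero, mul_one] at this
    exact_mod_cast this
  have hsubseq : Tendsto (fun m : ℕ => Real.log (e (2 ^ (m + 1))) / ((2 ^ (m + 1) : ℕ) : ℝ)) atTop
      (𝓝 hsub.lim) := by
    have : Tendsto (fun m : ℕ => 2 ^ (m + 1)) atTop atTop :=
      (tendsto_pow_atTop_atTop_of_one_lt (by norm_num : (1 : ℕ) < 2)).comp (tendsto_add_atTop_nat 1)
    exact hlim.comp this
  have hup : Tendsto (fun m : ℕ => Real.log C * (1 / 2 : ℝ) ^ m + Real.log 16 *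
      (m * (1 / 2 : ℝ) ^ m)) atTop (𝓝 0) := by
    have t1 : Tendsto (fun m : ℕ => (1 / 2 : ℝ) ^ m) atTop (𝓝 0) :=
      tendsto_pow_atTop_nhds_zero_of_lt_one (by norm_num) (by norm_num)
    have t2 : Tendsto (fun m : ℕ => (m : ℝ) * (1 / 2 : ℝ) ^ m) atTop (𝓝 0) :=
      tendsto_self_mul_const_pow_of_lt_one (by norm_num) (by norm_num)
    have := (t1.const_mul (Real.log C)).add (t2.const_mul (Real.log 16))
    simpa using this
  have hle : ∀ m : ℕ, Real.log (e (2 ^ (m + 1))) / ((2 ^ (m + 1) : ℕ) : ℝ) ≤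
      Real.log C * (1 / 2 : ℝ) ^ m + Real.log 16 * (m * (1 / 2 : ℝ) ^ m) := by
    intro m
    have a1 : Real.log (e (2 ^ (m + 1))) ≤ Real.log C + m * Real.log 16 := by
      rw [← Real.log_pow, ← Real.log_mul hC0.ne' (by positivity)]
      apply Real.log_le_log (hpos _)
      exact_mod_cast hC m
    have a2 : 0 ≤ Real.log C + m * Real.log 16 := (hlog _).trans a1
    have a3 : ((2 ^ (m + 1) : ℕ) : ℝ) = 2 * 2 ^ m := by
      push_cast
      ring
    rw [a3]
    have a4 : (0 : ℝ) < 2 ^ m := by positivity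
    have a5 : Real.log (e (2 ^ (m + 1))) / (2 * 2 ^ m) ≤ Real.log (e (2 ^ (m + 1))) / 2 ^ m := by
      apply div_le_div_of_nonneg_left (hlog _) a4
      linarith
    refine a5.trans ?_
    rw [div_le_iff₀ a4]
    have a6 : (Real.log C * (1 / 2 : ℝ) ^ m + Real.log 16 * (m * (1 / 2 : ℝ) ^ m)) * 2 ^ m =
        Real.log C + m * Real.log 16 := by
      have : (1 / 2 : ℝ) ^ m * 2 ^ m = 1 := by
        rw [← mul_pow]
        norm_num
      linear_combination (Real.log C + m * Real.log 16) * this
    rw [a6]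
    exact a1
  have hlim0 : hsub.lim = 0 := by
    apply le_antisymm
    · exact le_of_tendsto_of_tendsto' hsubseq hup hle
    · apply ge_of_tendsto hlim
      filter_upwards with n
      exact div_nonneg (hlog n) (Nat.cast_nonneg n)
  rw [hlim0] at hlim
  have h2 := (Real.continuous_exp.tendsto 0).comp hlim
  rw [Real.exp_zero] at h2
  refine h2.congr fun n => ?_
  rw [Function.comp_apply, Real.rpow_def_of_pos (hpos n)]
  congr 1
  ring

variable [CharZero K]

theorem main_map (K : Type u) [Field K] [CharZero K] :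
    ∃ (f : RatMap K 3) (e : ℕ → ℕ), IsBirational f ∧ IsDegSeq f e ∧
      (∀ e', IsDegSeq f e' → e' = e) ∧ (∀ n, 1 ≤ e n) ∧ (∀ m n, e (m + n) ≤ e m * e n) ∧
      (∃ C : ℕ, ∀ m, 16 ^ m ≤ C * (e (2 ^ (m + 1)) + 4 ^ m)) ∧
      (∃ C : ℕ, ∀ m, e (2 ^ (m + 1)) ≤ C * 16 ^ m) := by
  classical
  have hinf : Infinite K := by
    have hinj : Function.Injective (fun n : ℕ => (n : K)) := Nat.cast_injective
    exact Infinite.of_injective _ hinj
  obtain ⟨f, h0, h1⟩ := exists_map (y := img K)
  have h1' : ∀ i : Fin 3, sig K (io (X i)) * aeval (gen K) (f.poly 0) =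
      aeval (gen K) (f.poly i.succ) := by
    intro i
    rw [sig_X, h1]
  have hne : ∀ n, f.subst n 0 ≠ 0 := by
    intro n h
    have := (iter_formula (sig K) f h0 h1' n).1
    rw [h, map_zero] at this
    exact this rfl
  choose g hg using fun n => exists_iterate f n (hne n)
  have hcs : ∀ n, CSz K n (g n).degree := by
    intro n
    have h := size_le_degree (sig K) f (g n) h0 h1' n (hg n)
    exact ⟨h 0, h 1, h 2⟩
  refine ⟨f, fun n => (g n).degree, ⟨dominant_of_indep (img_indep K) f h0 h1,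
    bir_of_surj (sig K) (sig_surj K) f h0 h1'⟩,
    fun n => ⟨g n, hg n, rfl⟩, ?_, ?_, ?_, ?_, ?_⟩
  · intro e' he'
    funext n
    obtain ⟨g', hg', hge⟩ := he' n
    rw [← hge]
    exact iterate_unique f g' (g n) n (hne n) hg' (hg n)
  · intro n
    by_contra hcon
    have hcon' : ¬ 1 ≤ (g n).degree := hcon
    have hd : (g n).degree = 0 := by omega
    have h2 := (hcs n).1
    rw [hd] at h2
    obtain ⟨A, B, hB, hA1, hB1, hz⟩ := h2
    have e1 := totalDegree_eq_zero_iff_eq_C.1 (Nat.le_zero.1 hA1)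
    have e2 := totalDegree_eq_zero_iff_eq_C.1 (Nat.le_zero.1 hB1)
    set a := coeff 0 A
    set b := coeff 0 B
    have hb : b ≠ 0 := by
      intro h
      apply hB
      rw [e2, h, map_zero]
    have h3 : (sig K)^[n] (io (C b * X 0 - C a)) = 0 := by
      obtain ⟨φ, hφ⟩ := sig_iter_ring K n
      have hC : ∀ c : K, (sig K)^[n] (io (C c)) = io (C c) := by
        intro c
        have : ∀ n, (sig K)^[n] (io (C c)) = io (C c) := by
          intro n
          induction n with
          | zero => rfl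
          | succ n ih =>
            rw [Function.iterate_succ_apply]
            have : sig K (io (C c)) = io (C c) := by
              rw [sig_poly, algHom_C]
              rw [← MvPolynomial.algebraMap_eq]
              exact (IsScalarTower.algebraMap_apply K (Pol K) (Rat3 K) c)
            rw [this, ih]
        exact this n
      rw [map_sub, map_mul, hφ, map_sub, map_mul, ← hφ, ← hφ, ← hφ, hC, hC]
      have : (sig K)^[n] (io (X 0)) = io A / io B := hz
      rw [this, ← e1, ← e2, mul_div_cancel₀ _ (io_ne hB), sub_self]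
    have h4 : io (C b * X 0 - C a : Pol K) = 0 := by
      have hinj : Function.Injective ((sig K)^[n]) := (sig K).toRingHom.injective.iterate n
      exact hinj (by rw [h3]; exact (iterate_map_zero (sig K) n).symm)
    have h5 := io_eq_zero.1 h4
    have h6 := congrArg (eval (fun _ => (a + 1) / b)) h5
    simp only [map_sub, map_mul, eval_C, eval_X, map_zero, mul_div_cancel₀ _ hb] at h6
    norm_num at h6
  · intro m n
    have := degree_submul f (g n) (g m) (g (m + n)) m n (hne _) (hg n) (hg m) (hg (m + n))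
    rwa [mul_comm] at this
  · obtain ⟨C, hC⟩ := lower_main K
    exact ⟨C, fun m => hC m _ (hcs _)⟩
  · obtain ⟨C, hC⟩ := upper_main K
    refine ⟨3 * C, fun m => ?_⟩
    obtain ⟨k1, k2, k3⟩ := hC m
    have := degree_le_size (sig K) f (g (2 ^ (m + 1))) h0 h1' _ (hg _) (D := C * 16 ^ m) (by
      intro i
      fin_cases i
      · exact k1
      · exact k2
      · exact k3)
    rw [mul_assoc]
    exact this

end Pool.Agent.W480.X6
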