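import Pool.Agent.W480.X6.Par

set_option autoImplicit false
set_option linter.unusedSectionVars false

/-!
Growth of the sizes of the iterates.
-/

namespace Pool.Agent.W480.X6

open MvPolynomial WeierstrassCurve

universe u

variable (K : Type u) [Field K] [CharZero K]

/-- the coordinates of the `n`-th iterate have sizes at most `D` -/
def CSz (n D : ℕ) : Prop :=
  Sz ((sig K)^[n] (pp K)) D ∧ Sz ((sig K)^[n] (qq K)) D ∧ Sz ((sig K)^[n] (ll K)) D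

variable {K} in
theorem sz_rho {p q l : Rat3 K} {D : ℕ} (hp : Sz p D) (hq : Sz q D) (hl : Sz l D) :
    Sz (rho p q l) (15 * D) := by
  have hP := (hp.pow 3).sub Sz.one
  have hQ := (hq.pow 3).sub Sz.one
  have hE : Sz (eE p q l) (7 * D) := ((hl.mul hP).sub hQ).mono (by omega)
  have hD : Sz (dD p q l) (8 * D) := (hQ.sub ((hl.pow 2).mul hP)).mono (by omega)
  exact ((Sz.two.mul hE).div hD).mono (by omega)

theorem choose_pow (m : ℕ) : (2 ^ (m + 1)).choose 2 + 2 ^ m = 2 ^ (2 * m + 1) := by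
  rw [Nat.choose_two_right]
  have h1 : 1 ≤ 2 ^ (m + 1) := Nat.one_le_two_pow
  obtain ⟨k, hk⟩ := Nat.exists_eq_add_of_le h1
  have h2 : 2 ^ (m + 1) * (2 ^ (m + 1) - 1) / 2 = 2 ^ m * (2 ^ (m + 1) - 1) := by
    have : 2 ^ (m + 1) * (2 ^ (m + 1) - 1) = 2 * (2 ^ m * (2 ^ (m + 1) - 1)) := by
      rw [pow_succ 2 m]
      ring
    rw [this, Nat.mul_div_cancel_left _ (by norm_num)]
  rw [h2]
  have h3 : 2 ^ m * (2 ^ (m + 1) - 1) + 2 ^ m = 2 ^ m * ((2 ^ (m + 1) - 1) + 1) := by ring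
  rw [h3, Nat.sub_add_cancel h1, ← pow_add]
  congr 1
  ring

variable [DecidableEq (Rat3 K)]

theorem exists_PSz (P : (WL K).Point) : ∃ M, PSz P M M := by
  rcases at_or_zero P with h | ⟨x, y, h⟩
  · exact ⟨0, Or.inl h⟩
  · obtain ⟨d, hd⟩ := Sz.exists' x
    obtain ⟨e, he⟩ := Sz.exists' y
    exact ⟨max d e, Or.inr ⟨x, y, h, hd.mono (le_max_left _ _), he.mono (le_max_right _ _)⟩⟩

theorem consts (T : Trip (WL K)) : ∃ M H : ℕ, Sz (bet K) H ∧ PSz T.R1 M M ∧ PSz T.R2 M M ∧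
    PSz T.R3 M M := by
  obtain ⟨H, hH⟩ := Sz.exists' (bet K)
  obtain ⟨M1, h1⟩ := exists_PSz K T.R1
  obtain ⟨M2, h2⟩ := exists_PSz K T.R2
  obtain ⟨M3, h3⟩ := exists_PSz K T.R3
  exact ⟨M1 + M2 + M3, H, hH, h1.mono (by omega) (by omega), h2.mono (by omega) (by omega),
    h3.mono (by omega) (by omega)⟩

theorem lower_main : ∃ C : ℕ, ∀ m D, CSz K (2 ^ (m + 1)) D → 16 ^ m ≤ C * (D + 4 ^ m) := by
  obtain ⟨T⟩ := exists_trip (WL_isB K)
  obtain ⟨M, H, hH, h1, h2, h3⟩ := consts K T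
  refine ⟨6912 + 432 * (32 + M) + 8640 * (M + H) + 58, fun m D hD => ?_⟩
  obtain ⟨hp, hq, hl⟩ := hD
  set n := 2 ^ (m + 1) with hn
  have hA := at3_iter K T n
  have hs : Sz ((sig K)^[n] (ss K)) (16 * D) := by
    rw [ss_iter]
    exact (Sz.one.add (hl.mul (sz_rho hp hq hl))).mono (by omega)
  have hAs : PSz (T.R3 + n • T.R2 + (n.choose 2) • T.R1) (32 + 16 * D) (32 + 16 * D) :=
    Or.inr ⟨_, _, hA, ((sz_c0 K).mul hq).mono (by omega),
      (((sz_c0 K).pow 2).mul hs).mono (by omega)⟩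
  have e1 : (2 ^ (2 * m + 1) : ℕ) • T.R1 =
      ((T.R3 + n • T.R2 + (n.choose 2) • T.R1) + (-T.R3)) +
      (-((n : ℕ) • T.R2) + (2 ^ m : ℕ) • T.R1) := by
    rw [← choose_pow m, add_smul]
    abel
  have k1 := hAs.add (WL_isB K) (h3.neg (WL_isB K))
  have k2 := PSz.two_pow' (WL_isB K) hH h2 (m + 1)
  have k3 := PSz.two_pow' (WL_isB K) hH h1 m
  have k4 := (k2.neg (WL_isB K)).add (WL_isB K) k3
  have k5 := k1.add (WL_isB K) k4
  rw [← hn, ← e1] at k5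
  have k6 := lower_R1 K T _ _ _ k5
  have u1 : (4 : ℕ) ^ (m + 1) = 4 * 4 ^ m := by rw [pow_succ]; ring
  have u2 : (4 : ℕ) ^ (2 * m + 1) = 4 * 16 ^ m := by
    rw [pow_succ, pow_mul]
    norm_num
    ring
  rw [u1, u2] at k6
  have u3 : 1 ≤ 4 ^ m := Nat.one_le_pow _ _ (by norm_num)
  generalize 4 ^ m = u at *
  generalize 16 ^ m = v at *
  nlinarith [Nat.zero_le (M * D), Nat.zero_le (H * D), Nat.zero_le D, Nat.zero_le M,
    Nat.mul_le_mul_left M u3]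

theorem upper_main : ∃ C : ℕ, ∀ m, CSz K (2 ^ (m + 1)) (C * 16 ^ m) := by
  obtain ⟨T⟩ := exists_trip (WL_isB K)
  obtain ⟨M, H, hH, h1, h2, h3⟩ := consts K T
  refine ⟨100000 * (M + H + 1), fun m => ?_⟩
  set n := 2 ^ (m + 1) with hn
  have u1 : (4 : ℕ) ^ (m + 1) = 4 * 4 ^ m := by rw [pow_succ]; ring
  have u2 : (4 : ℕ) ^ (2 * m + 1) = 4 * 16 ^ m := by
    rw [pow_succ, pow_mul]
    norm_num
    ring
  have u3 : 1 ≤ 4 ^ m := Nat.one_le_pow _ _ (by norm_num)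
  have u4 : 4 ^ m ≤ 16 ^ m := Nat.pow_le_pow_left (by norm_num) m
  have q1 := PSz.two_pow' (WL_isB K) hH h1 (m + 1)
  have q2 := PSz.two_pow' (WL_isB K) hH h2 (m + 1)
  have q3 := PSz.two_pow' (WL_isB K) hH h1 m
  have q4 := PSz.two_pow' (WL_isB K) hH h1 (2 * m + 1)
  have e1 : (n.choose 2) • T.R1 = (2 ^ (2 * m + 1) : ℕ) • T.R1 + -((2 ^ m : ℕ) • T.R1) := by
    rw [← choose_pow m, add_smul]
    abel
  have r1 := h2.add (WL_isB K) q1
  have r2 := h3.add (WL_isB K) q2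
  have r3 := q4.add (WL_isB K) (q3.neg (WL_isB K))
  have r4 := r2.add (WL_isB K) r3
  rw [← e1, ← hn] at r4
  rw [← hn] at r1
  rw [u1] at r1
  rw [u1, u2] at r4
  have s1 : PSz (T.R2 + n • T.R1) (40000 * (M + H + 1) * 16 ^ m)
      (40000 * (M + H + 1) * 16 ^ m) := by
    have : 12 * (M + 4 * (M + H) * (4 * 4 ^ m)) ≤ 40000 * (M + H + 1) * 16 ^ m := by
      generalize 4 ^ m = u at *
      generalize 16 ^ m = v at *
      nlinarith [Nat.mul_le_mul_left M u4, Nat.mul_le_mul_left H u4, Nat.mul_le_mul_left M u3]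
    exact r1.mono this this
  have s2 : PSz (T.R3 + n • T.R2 + (n.choose 2) • T.R1) (40000 * (M + H + 1) * 16 ^ m)
      (40000 * (M + H + 1) * 16 ^ m) := by
    have : 12 * (12 * (M + 4 * (M + H) * (4 * 4 ^ m)) +
        12 * (4 * (M + H) * (4 * 16 ^ m) + 4 * (M + H) * 4 ^ m)) ≤
        40000 * (M + H + 1) * 16 ^ m := by
      generalize 4 ^ m = u at *
      generalize 16 ^ m = v at *
      nlinarith [Nat.mul_le_mul_left M u4, Nat.mul_le_mul_left H u4, Nat.mul_le_mul_left M u3]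
    exact r4.mono this this
  have hc := sz_c0 K
  have hc0 := c0_ne K
  have hc02 := pow_ne_zero 2 hc0
  rcases s1 with s1 | ⟨x, y, t1, t2, t3⟩
  · exact absurd s1 (at2_iter K T n).ne_zero
  obtain ⟨rfl, rfl⟩ := t1.inj (at2_iter K T n)
  rcases s2 with s2 | ⟨x', y', t4, t5, t6⟩
  · exact absurd s2 (at3_iter K T n).ne_zero
  obtain ⟨rfl, rfl⟩ := t4.inj (at3_iter K T n)
  have v1 := t2.div hc
  rw [mul_div_cancel_left₀ _ hc0] at v1
  have v2 := t3.div (hc.pow 2)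
  rw [mul_div_cancel_left₀ _ hc02] at v2
  have v3 := t5.div hc
  rw [mul_div_cancel_left₀ _ hc0] at v3
  have v4 := t6.div (hc.pow 2)
  rw [mul_div_cancel_left₀ _ hc02] at v4
  have v5 := (v4.sub Sz.one).div (v2.sub Sz.one)
  rw [← ll_iter] at v5
  have w : 1 ≤ 16 ^ m := Nat.one_le_pow _ _ (by norm_num)
  refine ⟨v1.mono ?_, v3.mono ?_, v5.mono ?_⟩
  all_goals
    generalize 16 ^ m = v at *
    nlinarith [Nat.mul_le_mul_left M w, Nat.mul_le_mul_left H w]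

end Pool.Agent.W480.X6
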