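import Pool.Agent.W480.X6.Sig

set_option autoImplicit false
set_option linter.unusedSectionVars false

/-!
Numerator and denominator of the parameter, and the multiples `2 ^ j R₁`.
-/

namespace Pool.Agent.W480.X6

open MvPolynomial WeierstrassCurve

universe u

variable (K : Type u) [Field K]

/-- `λP - Q` as a polynomial -/
noncomputable def eP : Pol K := X 2 * (X 0 ^ 3 - 1) - (X 1 ^ 3 - 1)

/-- `Q - λ²P` as a polynomial -/
noncomputable def dP : Pol K := (X 1 ^ 3 - 1) - X 2 ^ 2 * (X 0 ^ 3 - 1)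

/-- numerator of `c - 1` -/
noncomputable def b1 : Pol K := dP K ^ 2 - 4 * (X 2 * ((1 - X 2) * eP K))

/-- denominator of `c - 1` -/
noncomputable def b2 : Pol K := 4 * (X 2 * ((1 - X 2) * eP K))

theorem io_eP : io (eP K) = eE (pp K) (qq K) (ll K) := by
  simp only [eP, eE, pp, qq, ll, map_sub, map_mul, map_pow, map_one]

theorem io_dP : io (dP K) = dD (pp K) (qq K) (ll K) := by
  simp only [dP, dD, pp, qq, ll, map_sub, map_mul, map_pow, map_one]

variable {K} in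
theorem dof_sub {i : Fin 3} {f g : Pol K} (hf : degreeOf i f = 0) (hg : degreeOf i g = 0) :
    degreeOf i (f - g) = 0 := by
  have h1 : degreeOf i (-g) = 0 := by
    have : -g = C (-1) * g := by simp
    rw [this]
    have := degreeOf_C_mul_le g i (-1)
    omega
  have h2 := degreeOf_add_le i f (-g)
  rw [hf, h1, ← sub_eq_add_neg] at h2
  simpa using h2

theorem dof_cub {i j : Fin 3} (h : i ≠ j) : degreeOf i ((X j : Pol K) ^ 3 - 1) = 0 :=
  dof_sub (degreeOf_X_pow_of_ne 3 h) (degreeOf_one i)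

theorem deg_cub (j : Fin 3) : ((X j : Pol K) ^ 3 - 1).totalDegree = 3 := by
  rw [sub_eq_add_neg, totalDegree_add_eq_left_of_totalDegree_lt, totalDegree_X_pow]
  rw [totalDegree_neg, totalDegree_one, totalDegree_X_pow]
  norm_num

theorem cub_ne (j : Fin 3) : ((X j : Pol K) ^ 3 - 1) ≠ 0 := by
  intro h
  have := deg_cub K j
  rw [h, totalDegree_zero] at this
  omega

theorem deg_eP : (eP K).totalDegree = 4 := by
  have h1 : (X 2 * (X 0 ^ 3 - 1) : Pol K).totalDegree = 4 := by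
    rw [totalDegree_mul_of_isDomain (X_ne_zero 2) (cub_ne K 0), totalDegree_X, deg_cub]
  rw [eP, sub_eq_add_neg, totalDegree_add_eq_left_of_totalDegree_lt, h1]
  rw [totalDegree_neg, deg_cub, h1]
  norm_num

theorem deg_dP : (dP K).totalDegree = 5 := by
  have h1 : (X 2 ^ 2 * (X 0 ^ 3 - 1) : Pol K).totalDegree = 5 := by
    rw [totalDegree_mul_of_isDomain (pow_ne_zero 2 (X_ne_zero 2)) (cub_ne K 0),
      totalDegree_X_pow, deg_cub]
  rw [dP, sub_eq_add_neg, totalDegree_add_eq_right_of_totalDegree_lt, totalDegree_neg, h1]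
  rw [totalDegree_neg, deg_cub, h1]
  norm_num

theorem deg_1m : ((1 : Pol K) - X 2).totalDegree = 1 := by
  rw [sub_eq_add_neg, totalDegree_add_eq_right_of_totalDegree_lt, totalDegree_neg, totalDegree_X]
  rw [totalDegree_neg, totalDegree_one, totalDegree_X]
  norm_num

theorem m1_ne : ((1 : Pol K) - X 2) ≠ 0 := by
  intro h
  have := deg_1m K
  rw [h, totalDegree_zero] at this
  omega

theorem eP_ne : eP K ≠ 0 := by
  intro h
  have := deg_eP K
  rw [h, totalDegree_zero] at this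
  omega

theorem dP_ne : dP K ≠ 0 := by
  intro h
  have := deg_dP K
  rw [h, totalDegree_zero] at this
  omega

variable [CharZero K]

theorem deg_b2 : (b2 K).totalDegree = 6 := by
  have h := totalDegree_num_mul (n := 4) (by norm_num) (X 2 * ((1 - X 2) * eP K) : Pol K)
  push_cast at h
  rw [b2, h, totalDegree_mul_of_isDomain (X_ne_zero 2) (mul_ne_zero (m1_ne K) (eP_ne K)),
    totalDegree_mul_of_isDomain (m1_ne K) (eP_ne K), totalDegree_X, deg_1m, deg_eP]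

theorem deg_b1 : (b1 K).totalDegree = 10 := by
  have h1 : (dP K ^ 2).totalDegree = 10 := by
    rw [totalDegree_pow' _ (dP_ne K), deg_dP]
  have h2 := deg_b2 K
  rw [b2] at h2
  rw [b1, sub_eq_add_neg, totalDegree_add_eq_left_of_totalDegree_lt, h1]
  rw [totalDegree_neg, h2, h1]
  norm_num

theorem b2_ne : b2 K ≠ 0 := by
  intro h
  have := deg_b2 K
  rw [h, totalDegree_zero] at this
  omega

theorem b1_ne : b1 K ≠ 0 := by
  intro h
  have := deg_b1 K
  rw [h, totalDegree_zero] at this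
  omega

theorem bb_eq : c0 K - 1 = io (b1 K) / io (b2 K) := by
  have h1 : c0 K = io (dP K ^ 2) / io (b2 K) := by
    rw [c0, cc, b2]
    simp only [map_mul, map_pow, map_sub, map_one, map_ofNat, io_eP, io_dP]
    rfl
  have h2 := io_ne (b2_ne K)
  rw [h1, eq_div_iff h2, sub_mul, div_mul_cancel₀ _ h2, one_mul, b1, map_sub, b2]

theorem np_b : NP (b1 K) (b2 K) := by
  have n1 : NP (X 2 : Pol K) (X 1 ^ 3 - 1) := by
    apply NP.of_vars (X_ne_zero 2) (cub_ne K 1)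
    intro i
    by_cases h : i = 1
    · left
      rw [h]
      exact degreeOf_X_of_ne (by decide)
    · right
      exact dof_cub K h
  have n3 : NP (X 0 ^ 3 - 1 : Pol K) (X 1 ^ 3 - 1) := by
    apply NP.of_vars (cub_ne K 0) (cub_ne K 1)
    intro i
    by_cases h : i = 1
    · left
      rw [h]
      exact dof_cub K (by decide)
    · right
      exact dof_cub K h
  have hne : ((X 1 ^ 3 - 1) - (X 0 ^ 3 - 1) : Pol K) ≠ 0 := by
    intro h
    have h1 := congrArg (eval (tp K)) h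
    simp only [map_sub, map_pow, eval_X, map_one, map_zero, tp] at h1
    norm_num at h1
  have n2 : NP (1 - X 2 : Pol K) ((X 1 ^ 3 - 1) - (X 0 ^ 3 - 1)) := by
    apply NP.of_vars (m1_ne K) hne
    intro i
    by_cases h : i = 2
    · right
      rw [h]
      exact dof_sub (dof_cub K (by decide)) (dof_cub K (by decide))
    · left
      exact dof_sub (degreeOf_one i) (degreeOf_X_of_ne h)
  -- the first two cases
  have c1 : ∀ π : Pol K, Prime π → π ∣ dP K → π ∣ X 2 → False := by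
    intro π hπ h1 h2
    refine n1 π hπ h2 ?_
    have h3 := dvd_add h1 (Dvd.dvd.mul_right h2 (X 2 * (X 0 ^ 3 - 1)))
    have e : dP K + X 2 * (X 2 * (X 0 ^ 3 - 1)) = X 1 ^ 3 - 1 := by
      rw [dP]
      ring
    rwa [e] at h3
  have c2 : ∀ π : Pol K, Prime π → π ∣ dP K → π ∣ 1 - X 2 → False := by
    intro π hπ h1 h2
    refine n2 π hπ h2 ?_
    have h3 := dvd_sub h1 (Dvd.dvd.mul_right h2 ((1 + X 2) * (X 0 ^ 3 - 1)))
    have e : dP K - (1 - X 2) * ((1 + X 2) * (X 0 ^ 3 - 1)) =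
        (X 1 ^ 3 - 1) - (X 0 ^ 3 - 1) := by
      rw [dP]
      ring
    rwa [e] at h3
  intro π hπ h1 h2
  have h3 : π ∣ dP K := by
    have := dvd_add h1 h2
    rw [b1, b2, sub_add_cancel] at this
    exact hπ.dvd_of_dvd_pow this
  have h4 : π ∣ X 2 * ((1 - X 2) * eP K) := by
    apply dvd_of_num (n := 4) (K := K) (by norm_num)
    exact_mod_cast h2
  rcases hπ.dvd_or_dvd h4 with h5 | h5
  · exact c1 π hπ h3 h5
  rcases hπ.dvd_or_dvd h5 with h6 | h6
  · exact c2 π hπ h3 h6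
  · have e1 : dP K + eP K = X 2 * ((1 - X 2) * (X 0 ^ 3 - 1)) := by
      rw [dP, eP]
      ring
    have e2 : dP K + X 2 * eP K = (1 - X 2) * (X 1 ^ 3 - 1) := by
      rw [dP, eP]
      ring
    have k1 := dvd_add h3 h6
    rw [e1] at k1
    have k2 := dvd_add h3 (Dvd.dvd.mul_left h6 (X 2))
    rw [e2] at k2
    rcases hπ.dvd_or_dvd k1 with k3 | k3
    · exact c1 π hπ h3 k3
    rcases hπ.dvd_or_dvd k3 with k4 | k4
    · exact c2 π hπ h3 k4
    rcases hπ.dvd_or_dvd k2 with k5 | k5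
    · exact c2 π hπ h3 k5
    exact n3 π hπ k4 k5

/-- the abscissa of `2 ^ j R₁`, divided by `c` -/
noncomputable def xj (j : ℕ) : Rat3 K :=
  io (dup (b1 K) (b2 K) j).1 / io (dup (b1 K) (b2 K) j).2

theorem dup_deg' (j : ℕ) : (dup (b1 K) (b2 K) j).1 ≠ 0 ∧ (dup (b1 K) (b2 K) j).2 ≠ 0 ∧
      3 * (dup (b1 K) (b2 K) j).1.totalDegree + 10 = 10 * 4 ^ j ∧
      b2 K * (dup (b1 K) (b2 K) j).1 ^ 3 + b1 K * (dup (b1 K) (b2 K) j).2 ^ 3 ≠ 0 := by
  have h := dup_deg (b₁ := b1 K) (b2_ne K) (by rw [deg_b1, deg_b2]; norm_num) j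
  rw [deg_b1] at h
  exact ⟨h.1, h.2.1, h.2.2.1, h.2.2.2.2⟩

theorem xj_cub (j : ℕ) : xj K j ^ 3 + (c0 K - 1) ≠ 0 := by
  obtain ⟨h1, h2, h3, h4⟩ := dup_deg' K j
  have e1 := io_ne h2
  have e2 := io_ne (b2_ne K)
  rw [xj, bb_eq]
  have : (io (dup (b1 K) (b2 K) j).1 / io (dup (b1 K) (b2 K) j).2) ^ 3 +
      io (b1 K) / io (b2 K) =
      io (b2 K * (dup (b1 K) (b2 K) j).1 ^ 3 + b1 K * (dup (b1 K) (b2 K) j).2 ^ 3) /
        (io (b2 K) * io (dup (b1 K) (b2 K) j).2 ^ 3) := by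
    simp only [map_add, map_mul, map_pow]
    field_simp
  rw [this]
  exact div_ne_zero (io_ne h4) (mul_ne_zero e2 (pow_ne_zero 3 e1))

theorem xj_succ (j : ℕ) : xj K (j + 1) =
    xj K j * (xj K j ^ 3 - 8 * (c0 K - 1)) / (4 * (xj K j ^ 3 + (c0 K - 1))) := by
  obtain ⟨h1, h2, h3, h4⟩ := dup_deg' K j
  have e1 := io_ne h2
  have e2 := io_ne (b2_ne K)
  have e4 := io_ne h4
  have h5 := xj_cub K j
  have n4 : (4 : Rat3 K) ≠ 0 := ne_of_ev K Ev.four (by norm_num)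
  have k1 : (xj K j ^ 3 + (c0 K - 1)) * (io (b2 K) * io (dup (b1 K) (b2 K) j).2 ^ 3) =
      io (b2 K * (dup (b1 K) (b2 K) j).1 ^ 3 + b1 K * (dup (b1 K) (b2 K) j).2 ^ 3) := by
    rw [xj, bb_eq]
    simp only [map_add, map_mul, map_pow]
    field_simp
  have k2 : (xj K j ^ 3 - 8 * (c0 K - 1)) * (io (b2 K) * io (dup (b1 K) (b2 K) j).2 ^ 3) =
      io (b2 K * (dup (b1 K) (b2 K) j).1 ^ 3 - 8 * (b1 K * (dup (b1 K) (b2 K) j).2 ^ 3)) := by
    rw [xj, bb_eq]
    simp only [map_sub, map_mul, map_pow, map_ofNat]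
    field_simp
  have k3 : xj K j * io (dup (b1 K) (b2 K) j).2 = io (dup (b1 K) (b2 K) j).1 := by
    rw [xj, div_mul_cancel₀ _ e1]
  have h6 : (4 * (xj K j ^ 3 + (c0 K - 1))) ≠ 0 := mul_ne_zero n4 h5
  rw [eq_div_iff h6]
  have e5 : io (dup (b1 K) (b2 K) (j + 1)).2 = 4 * (io (dup (b1 K) (b2 K) j).2 *
      io (b2 K * (dup (b1 K) (b2 K) j).1 ^ 3 + b1 K * (dup (b1 K) (b2 K) j).2 ^ 3)) := by
    simp only [dup, map_mul, map_ofNat]
  have e6 : io (dup (b1 K) (b2 K) (j + 1)).1 = io (dup (b1 K) (b2 K) j).1 *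
      io (b2 K * (dup (b1 K) (b2 K) j).1 ^ 3 - 8 * (b1 K * (dup (b1 K) (b2 K) j).2 ^ 3)) := by
    simp only [dup, map_mul]
  have e7 : xj K (j + 1) * io (dup (b1 K) (b2 K) (j + 1)).2 =
      io (dup (b1 K) (b2 K) (j + 1)).1 := by
    rw [xj, div_mul_cancel₀ _ (io_ne (dup_deg' K (j + 1)).2.1)]
  rw [e5, e6, ← k1, ← k2, ← k3] at e7
  have e8 : io (dup (b1 K) (b2 K) j).2 * (io (b2 K) * io (dup (b1 K) (b2 K) j).2 ^ 3) ≠ 0 :=
    mul_ne_zero e1 (mul_ne_zero e2 (pow_ne_zero 3 e1))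
  apply mul_right_cancel₀ e8
  linear_combination e7

variable [DecidableEq (Rat3 K)]

theorem at1_two_pow (T : Trip (WL K)) (j : ℕ) :
    ∃ y, At ((2 ^ j : ℕ) • T.R1) (c0 K * xj K j) y := by
  induction j with
  | zero =>
    refine ⟨c0 K ^ 2, ?_⟩
    have h : xj K 0 = 1 := by
      simp [xj, dup]
    rw [h, mul_one, pow_zero, one_smul]
    exact T.at1
  | succ j ih =>
    obtain ⟨y, hy⟩ := ih
    have h1 := hy.eqn (WL_isB K)
    have h2 : y ≠ 0 := by
      intro h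
      rw [h, bet] at h1
      have h3 : c0 K ^ 3 * (xj K j ^ 3 + (c0 K - 1)) = 0 := by linear_combination -h1
      exact mul_ne_zero (pow_ne_zero 3 (c0_ne K)) (xj_cub K j) h3
    have h3 : 2 * y ≠ 0 := mul_ne_zero (two_ne K) h2
    obtain ⟨ℓ, hℓ⟩ : ∃ ℓ : Rat3 K, ℓ = 3 * (c0 K * xj K j) ^ 2 / (2 * y) := ⟨_, rfl⟩
    have h4 := add_self_at (WL_isB K) hy h3 ℓ hℓ
    rw [dbl_formula h1 h3 hℓ] at h4
    have h5 : c0 K * xj K j * ((c0 K * xj K j) ^ 3 - 8 * bet K) /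
        (4 * ((c0 K * xj K j) ^ 3 + bet K)) = c0 K * xj K (j + 1) := by
      rw [xj_succ, bet]
      have e1 : c0 K * xj K j * ((c0 K * xj K j) ^ 3 - 8 * ((c0 K - 1) * c0 K ^ 3)) =
          (c0 K * (xj K j * (xj K j ^ 3 - 8 * (c0 K - 1)))) * c0 K ^ 3 := by ring
      have e2 : 4 * ((c0 K * xj K j) ^ 3 + (c0 K - 1) * c0 K ^ 3) =
          (4 * (xj K j ^ 3 + (c0 K - 1))) * c0 K ^ 3 := by ring
      rw [e1, e2, mul_div_mul_right _ _ (pow_ne_zero 3 (c0_ne K)), mul_div_assoc]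
    rw [h5] at h4
    have h6 : (2 ^ (j + 1) : ℕ) • T.R1 = (2 ^ j : ℕ) • T.R1 + (2 ^ j : ℕ) • T.R1 := by
      rw [pow_succ, mul_two, add_smul]
    rw [h6]
    exact ⟨_, h4⟩

theorem sz_c0 : Sz (c0 K) 16 := by
  have h : c0 K = (c0 K - 1) + 1 := by ring
  rw [h, bb_eq]
  have h1 := Sz.poly (b1 K)
  have h2 := Sz.poly (b2 K)
  rw [deg_b1] at h1
  rw [deg_b2] at h2
  exact (((h1.div h2).add Sz.one).mono (by norm_num))

/-- lower bound for the size of `2 ^ j R₁` -/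
theorem lower_R1 (T : Trip (WL K)) (j d e : ℕ) (h : PSz ((2 ^ j : ℕ) • T.R1) d e) :
    10 * 4 ^ j ≤ 3 * d + 58 := by
  obtain ⟨y, hy⟩ := at1_two_pow K T j
  rcases h with h | ⟨x', y', h1, h2, h3⟩
  · exact absurd h hy.ne_zero
  obtain ⟨rfl, rfl⟩ := hy.inj h1
  have h4 : Sz (xj K j) (d + 16) := by
    have := h2.div (sz_c0 K)
    rwa [mul_div_cancel_left₀ _ (c0_ne K)] at this
  obtain ⟨k1, k2, k3, k4⟩ := dup_deg' K j
  have h5 := Sz.lower k1 k2 (dup_np (np_b K) j).1 h4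
  omega

end Pool.Agent.W480.X6
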