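import Pool.Agent.W480.X6.Grow
import Pool.Agent.W480.DD.Defs
import Pool.Agent.Helper993.CS.Z2

set_option autoImplicit false
set_option linter.unusedSectionVars false

/-!
From endomorphisms of the field of rational functions to rational self-maps of projective space.
-/

namespace Pool.Agent.W480.X6

open MvPolynomial Pool.Agent.W480.DD Pool.Agent.Helper993.CS

universe u

/-- polynomials in the four homogeneous coordinates -/
abbrev Pol4 (K : Type u) [Field K] : Type u := MvPolynomial (Fin (3 + 1)) K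

variable {K : Type u} [Field K]

/-- dehomogenisation -/
noncomputable def deh : Pol4 K →ₐ[K] Pol K := aeval (Fin.cons 1 X : Fin (3 + 1) → Pol K)

/-- the generic point with first coordinate `1` -/
noncomputable def gen (K : Type u) [Field K] : Fin (3 + 1) → Rat3 K :=
  Fin.cons 1 (fun i => io (X i))

theorem gen_zero : gen K 0 = 1 := rfl

theorem gen_succ (i : Fin 3) : gen K i.succ = io (X i) := rfl

theorem gx_eq (P : Pol4 K) : aeval (gen K) P = io (deh P) := by
  have h : (aeval (gen K) : Pol4 K →ₐ[K] Rat3 K) =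
      (IsScalarTower.toAlgHom K (Pol K) (Rat3 K)).comp deh := by
    apply MvPolynomial.algHom_ext
    intro i
    rw [aeval_X, AlgHom.comp_apply, deh, aeval_X]
    refine Fin.cases ?_ (fun j => ?_) i
    · rw [gen_zero, Fin.cons_zero, map_one]
    · rw [gen_succ, Fin.cons_succ]
      rfl
  rw [h]
  rfl

theorem deh_deg {P : Pol4 K} {e : ℕ} (h : P.IsHomogeneous e) : (deh P).totalDegree ≤ e := by
  rw [deh, P.as_sum, map_sum]
  refine (totalDegree_finsetSum _ _).trans (Finset.sup_le fun s hs => ?_)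
  rw [aeval_monomial, Finsupp.prod_fintype _ _ (by simp), Fin.prod_univ_succ]
  simp only [Fin.cons_zero, Fin.cons_succ, one_pow, one_mul]
  refine (totalDegree_mul _ _).trans ?_
  rw [MvPolynomial.algebraMap_eq, totalDegree_C, zero_add]
  refine (totalDegree_finsetProd _ _).trans ?_
  have h1 : s.degree ≤ e := (le_totalDegree hs).trans h.totalDegree_le
  have h2 : s.degree = s 0 + ∑ i : Fin 3, s i.succ := by
    rw [Finsupp.degree_eq_sum, Fin.sum_univ_succ]
  have h3 : ∑ i : Fin 3, ((X i : Pol K) ^ s i.succ).totalDegree ≤ ∑ i : Fin 3, s i.succ := by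
    apply Finset.sum_le_sum
    intro i _
    refine (totalDegree_pow _ _).trans ?_
    rw [totalDegree_X, mul_one]
  omega

theorem exists_hom (Q : Pol K) {e : ℕ} (h : Q.totalDegree ≤ e) :
    ∃ P : Pol4 K, P.IsHomogeneous e ∧ deh P = Q := by
  refine ⟨∑ s ∈ Q.support, monomial (Finsupp.cons (e - s.degree) s) (coeff s Q), ?_, ?_⟩
  · apply IsHomogeneous.sum
    intro s hs
    apply isHomogeneous_monomial
    have h1 : s.degree ≤ Q.totalDegree := le_totalDegree hs
    rw [Finsupp.degree_eq_sum, Fin.sum_univ_succ]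
    simp only [Finsupp.cons_zero, Finsupp.cons_succ]
    rw [← Finsupp.degree_eq_sum]
    omega
  · rw [deh, map_sum]
    conv_rhs => rw [Q.as_sum]
    apply Finset.sum_congr rfl
    intro s hs
    rw [aeval_monomial, Finsupp.prod_fintype _ _ (by simp), Fin.prod_univ_succ]
    simp only [Finsupp.cons_zero, Finsupp.cons_succ, Fin.cons_zero, Fin.cons_succ, one_pow, one_mul]
    rw [monomial_eq, Finsupp.prod_fintype _ _ (by simp)]
    rfl

theorem gx_inj [Infinite K] {P : Pol4 K} {e : ℕ} (hP : P.IsHomogeneous e)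
    (h : aeval (gen K) P = 0) : P = 0 := by
  rw [gx_eq] at h
  exact ff_inj hP (io_eq_zero.1 h)

theorem exists_tuple {y : Fin 3 → Rat3 K} {D : ℕ} (h : ∀ i, Sz (y i) D) :
    ∃ F : Fin (3 + 1) → Pol4 K, (∀ i, (F i).IsHomogeneous (3 * D)) ∧ aeval (gen K) (F 0) ≠ 0 ∧
      ∀ i : Fin 3, y i * aeval (gen K) (F 0) = aeval (gen K) (F i.succ) := by
  choose A B hB hA1 hB1 hy using h
  have tri : ∀ a b c : Pol K, a.totalDegree ≤ D → b.totalDegree ≤ D → c.totalDegree ≤ D →
      (a * b * c).totalDegree ≤ 3 * D := by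
    intro a b c h1 h2 h3
    refine (totalDegree_mul _ _).trans ?_
    have := totalDegree_mul a b
    omega
  obtain ⟨P0, hP0, e0⟩ := exists_hom (B 0 * B 1 * B 2) (tri _ _ _ (hB1 0) (hB1 1) (hB1 2))
  obtain ⟨P1, hP1, e1⟩ := exists_hom (A 0 * B 1 * B 2) (tri _ _ _ (hA1 0) (hB1 1) (hB1 2))
  obtain ⟨P2, hP2, e2⟩ := exists_hom (B 0 * A 1 * B 2) (tri _ _ _ (hB1 0) (hA1 1) (hB1 2))
  obtain ⟨P3, hP3, e3⟩ := exists_hom (B 0 * B 1 * A 2) (tri _ _ _ (hB1 0) (hB1 1) (hA1 2))
  have n0 := io_ne (hB 0)
  have n1 := io_ne (hB 1)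
  have n2 := io_ne (hB 2)
  refine ⟨Fin.cons P0 ![P1, P2, P3], ?_, ?_, ?_⟩
  · intro i
    refine Fin.cases hP0 (fun j => ?_) i
    rw [Fin.cons_succ]
    fin_cases j
    · exact hP1
    · exact hP2
    · exact hP3
  · rw [Fin.cons_zero, gx_eq, e0, map_mul, map_mul]
    exact mul_ne_zero (mul_ne_zero n0 n1) n2
  · intro i
    rw [Fin.cons_succ, Fin.cons_zero, gx_eq, gx_eq, e0, hy]
    fin_cases i
    · show io (A 0) / io (B 0) * io (B 0 * B 1 * B 2) = io (deh P1)
      rw [e1, map_mul, map_mul, map_mul, map_mul]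
      field_simp
    · show io (A 1) / io (B 1) * io (B 0 * B 1 * B 2) = io (deh P2)
      rw [e2, map_mul, map_mul, map_mul, map_mul]
      field_simp
    · show io (A 2) / io (B 2) * io (B 0 * B 1 * B 2) = io (deh P3)
      rw [e3, map_mul, map_mul, map_mul, map_mul]
      field_simp

theorem exists_map {y : Fin 3 → Rat3 K} : ∃ f : RatMap K 3, aeval (gen K) (f.poly 0) ≠ 0 ∧
      ∀ i : Fin 3, y i * aeval (gen K) (f.poly 0) = aeval (gen K) (f.poly i.succ) := by
  have : ∃ D, ∀ i, Sz (y i) D := by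
    choose D hD using fun i => Sz.exists' (y i)
    exact ⟨∑ i, D i, fun i => (hD i).mono (Finset.single_le_sum (f := D)
      (fun _ _ => Nat.zero_le _) (Finset.mem_univ i))⟩
  obtain ⟨D, hD⟩ := this
  obtain ⟨F, hF, h0, h1⟩ := exists_tuple hD
  have hF0 : F 0 ≠ 0 := by
    intro h
    rw [h, map_zero] at h0
    exact h0 rfl
  obtain ⟨d, H, G, hH, hG, hGd, hGc⟩ := redDeg_exists (3 * D) F hF hF0
  refine ⟨⟨G, d, hGd, hGc⟩, ?_, ?_⟩
  · intro h
    apply h0
    rw [hG 0, map_mul]
    show _ * aeval (gen K) (G 0) = 0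
    have : aeval (gen K) (G 0) = 0 := h
    rw [this, mul_zero]
  · intro i
    have h2 := h1 i
    rw [hG 0, hG i.succ, map_mul, map_mul] at h2
    have h3 : aeval (gen K) H ≠ 0 := by
      intro h
      apply h0
      rw [hG 0, map_mul, h, zero_mul]
    apply mul_left_cancel₀ h3
    show aeval (gen K) H * (y i * aeval (gen K) (G 0)) = aeval (gen K) H * aeval (gen K) (G i.succ)
    linear_combination h2

theorem dominant_of_indep [Infinite K] {y : Fin 3 → Rat3 K} (hy : AlgebraicIndependent K y)
    (f : RatMap K 3) (h0 : aeval (gen K) (f.poly 0) ≠ 0)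
    (h1 : ∀ i : Fin 3, y i * aeval (gen K) (f.poly 0) = aeval (gen K) (f.poly i.succ)) :
    f.Dominant := by
  have hd : f.degree ≠ 0 := by
    intro hd
    have hc : ∀ i, ∃ a : K, f.poly i = C a := by
      intro i
      have := f.homogeneous i
      rw [hd, ← totalDegree_zero_iff_isHomogeneous, totalDegree_eq_zero_iff_eq_C] at this
      exact ⟨_, this⟩
    choose a ha using hc
    have ha0 : a 0 ≠ 0 := by
      intro h
      apply h0
      rw [ha, h, map_zero, map_zero]
    have h2 := h1 0
    rw [ha, ha, algHom_C, algHom_C] at h2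
    have h3 : y 0 = algebraMap K (Rat3 K) (a (Fin.succ 0) / a 0) := by
      rw [map_div₀, eq_div_iff, h2]
      intro h
      exact ha0 ((map_eq_zero _).1 h)
    have h4 : (X 0 - C (a (Fin.succ 0) / a 0) : Pol K) = 0 := by
      apply (algebraicIndependent_iff.1 hy)
      rw [map_sub, aeval_X, algHom_C, h3, sub_self]
    have h5 := congrArg (eval (fun _ => a (Fin.succ 0) / a 0 + 1)) h4
    simp at h5
  rw [RatMap.Dominant, algebraicIndependent_iff]
  intro P hP
  have key : ∀ k, homogeneousComponent k P = 0 := by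
    intro k
    have hk := homogeneousComponent_isHomogeneous k P
    have h2 : aeval f.poly (homogeneousComponent k P) = 0 := by
      have h3 : homogeneousComponent (f.degree * k) (aeval f.poly P) =
          aeval f.poly (homogeneousComponent k P) := by
        conv_lhs => rw [← sum_homogeneousComponent P]
        rw [map_sum, map_sum]
        have h4 : ∀ i ∈ Finset.range (P.totalDegree + 1),
            homogeneousComponent (f.degree * k) (aeval f.poly (homogeneousComponent i P)) =
            if i = k then aeval f.poly (homogeneousComponent k P) else 0 := by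
          intro i _
          have h5 : (aeval f.poly (homogeneousComponent i P)).IsHomogeneous (f.degree * i) :=
            (homogeneousComponent_isHomogeneous i P).aeval f.poly f.homogeneous
          rw [homogeneousComponent_of_mem h5]
          by_cases hik : i = k
          · subst hik
            simp
          · rw [if_neg hik, if_neg]
            intro h
            exact hik (Nat.eq_of_mul_eq_mul_left (Nat.pos_of_ne_zero hd) h.symm)
        rw [Finset.sum_congr rfl h4, Finset.sum_ite_eq']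
        split_ifs with hmem
        · rfl
        · rw [Finset.mem_range, not_lt] at hmem
          rw [homogeneousComponent_eq_zero k P (by omega), map_zero]
      rw [← h3, hP, map_zero]
    have h3 : aeval (gen K) (aeval f.poly (homogeneousComponent k P)) = 0 := by rw [h2, map_zero]
    rw [← AlgHom.comp_apply, comp_aeval] at h3
    have h4 : (fun i => (aeval (gen K)) (f.poly i)) =
        fun i => aeval (gen K) (f.poly 0) * (Fin.cons 1 y : Fin (3 + 1) → Rat3 K) i := by
      funext i
      refine Fin.cases ?_ (fun j => ?_) i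
      · simp
      · rw [Fin.cons_succ, ← h1 j, mul_comm]
    rw [h4, ff_scale hk] at h3
    have h5 := (mul_eq_zero.1 h3).resolve_left (pow_ne_zero _ h0)
    have h6 : aeval y (deh (homogeneousComponent k P)) = 0 := by
      rw [← h5, deh, ← AlgHom.comp_apply, comp_aeval]
      congr 2
      funext i
      refine Fin.cases ?_ (fun j => ?_) i
      · simp
      · simp
    have h7 := (algebraicIndependent_iff.1 hy) _ h6
    exact ff_inj hk h7
  rw [← sum_homogeneousComponent P]
  exact Finset.sum_eq_zero fun i _ => key i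

theorem iter_formula [Infinite K] (φ : Rat3 K →ₐ[K] Rat3 K) (f : RatMap K 3)
    (h0 : aeval (gen K) (f.poly 0) ≠ 0)
    (h1 : ∀ i : Fin 3, φ (io (X i)) * aeval (gen K) (f.poly 0) = aeval (gen K) (f.poly i.succ)) (n : ℕ) :
    aeval (gen K) (f.subst n 0) ≠ 0 ∧
      ∀ i, (⇑φ)^[n] (gen K i) * aeval (gen K) (f.subst n 0) = aeval (gen K) (f.subst n i) := by
  have hφ : ∀ i, φ (gen K i) * aeval (gen K) (f.poly 0) = aeval (gen K) (f.poly i) := by
    intro i
    refine Fin.cases ?_ (fun j => ?_) i
    · rw [gen_zero, map_one, one_mul]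
    · rw [gen_succ, h1]
  have key : ∀ (n : ℕ) (P : Pol4 K), (⇑φ)^[n] (aeval (gen K) P) =
      aeval (fun i => (⇑φ)^[n] (gen K i)) P := by
    intro n
    induction n with
    | zero => intro P; rfl
    | succ n ih =>
      intro P
      simp only [Function.iterate_succ', Function.comp_apply]
      rw [ih, ← AlgHom.comp_apply, comp_aeval]
  have hmul : ∀ (n : ℕ) (a b : Rat3 K), (⇑φ)^[n] (a * b) = (⇑φ)^[n] a * (⇑φ)^[n] b := by
    intro n a b
    exact iterate_map_mul φ n a b
  have hinj : ∀ n : ℕ, Function.Injective ((⇑φ)^[n]) := fun n => φ.toRingHom.injective.iterate n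
  have hzero : ∀ n : ℕ, (⇑φ)^[n] 0 = 0 := fun n => iterate_map_zero φ n
  induction n with
  | zero =>
    refine ⟨?_, ?_⟩
    · show aeval (gen K) (X 0) ≠ 0
      rw [aeval_X, gen_zero]
      exact one_ne_zero
    · intro i
      show gen K i * aeval (gen K) (X 0) = aeval (gen K) (X i)
      rw [aeval_X, aeval_X, gen_zero, mul_one]
  | succ n ih =>
    obtain ⟨ih0, ih1⟩ := ih
    have step : ∀ i, aeval (gen K) (f.subst (n + 1) i) =
        (aeval (gen K) (f.subst n 0)) ^ f.degree * (⇑φ)^[n] (aeval (gen K) (f.poly i)) := by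
      intro i
      show aeval (gen K) (bind₁ (f.subst n) (f.poly i)) = _
      rw [aeval_bind₁, key, ← ff_scale (f.homogeneous i)]
      congr 2
      funext j
      rw [← ih1 j, mul_comm]
    refine ⟨?_, ?_⟩
    · rw [step]
      apply mul_ne_zero (pow_ne_zero _ ih0)
      intro h
      exact h0 (hinj n (by rw [h, hzero]))
    · intro i
      rw [step, step, Function.iterate_succ, Function.comp_apply]
      rw [← hφ i, hmul]
      ring

theorem iter_coords [Infinite K] (φ : Rat3 K →ₐ[K] Rat3 K) (f g : RatMap K 3)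
    (h0 : aeval (gen K) (f.poly 0) ≠ 0)
    (h1 : ∀ i : Fin 3, φ (io (X i)) * aeval (gen K) (f.poly 0) = aeval (gen K) (f.poly i.succ)) (n : ℕ)
    (hg : f.IsIterate n g) : aeval (gen K) (g.poly 0) ≠ 0 ∧
      ∀ i, (⇑φ)^[n] (gen K i) * aeval (gen K) (g.poly 0) = aeval (gen K) (g.poly i) := by
  obtain ⟨k0, k1⟩ := iter_formula φ f h0 h1 n
  obtain ⟨c, hc, hcg⟩ := hg
  have e0 : aeval (gen K) c ≠ 0 ∧ aeval (gen K) (g.poly 0) ≠ 0 := by
    rw [hcg, map_mul] at k0
    exact ⟨left_ne_zero_of_mul k0, right_ne_zero_of_mul k0⟩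
  refine ⟨e0.2, fun i => ?_⟩
  have := k1 i
  rw [hcg, hcg, map_mul, map_mul] at this
  apply mul_left_cancel₀ e0.1
  linear_combination this

/-- the coordinates of an iterate have sizes at most its degree -/
theorem size_le_degree [Infinite K] (φ : Rat3 K →ₐ[K] Rat3 K) (f g : RatMap K 3)
    (h0 : aeval (gen K) (f.poly 0) ≠ 0)
    (h1 : ∀ i : Fin 3, φ (io (X i)) * aeval (gen K) (f.poly 0) = aeval (gen K) (f.poly i.succ)) (n : ℕ)
    (hg : f.IsIterate n g) (i : Fin 3) : Sz ((⇑φ)^[n] (io (X i))) g.degree := by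
  obtain ⟨k0, k1⟩ := iter_coords φ f g h0 h1 n hg
  refine ⟨deh (g.poly i.succ), deh (g.poly 0), ?_, deh_deg (g.homogeneous _),
    deh_deg (g.homogeneous _), ?_⟩
  · intro h
    rw [gx_eq, h, map_zero] at k0
    exact k0 rfl
  · have h2 := k1 i.succ
    rw [gen_succ] at h2
    rw [← gx_eq, ← gx_eq, eq_div_iff k0, h2]

/-- the degree of an iterate is bounded by the sizes of its coordinates -/
theorem degree_le_size [Infinite K] (φ : Rat3 K →ₐ[K] Rat3 K) (f g : RatMap K 3)
    (h0 : aeval (gen K) (f.poly 0) ≠ 0)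
    (h1 : ∀ i : Fin 3, φ (io (X i)) * aeval (gen K) (f.poly 0) = aeval (gen K) (f.poly i.succ)) (n : ℕ)
    (hg : f.IsIterate n g) {D : ℕ} (hD : ∀ i : Fin 3, Sz ((⇑φ)^[n] (io (X i))) D) :
    g.degree ≤ 3 * D := by
  obtain ⟨k0, k1⟩ := iter_coords φ f g h0 h1 n hg
  obtain ⟨F, hF, f0, f1⟩ := exists_tuple hD
  have hprop : ∀ i, F 0 * g.poly i = g.poly 0 * F i := by
    intro i
    have e1 : (F 0 * g.poly i - g.poly 0 * F i).IsHomogeneous (3 * D + g.degree) := by
      apply IsHomogeneous.sub
      · exact (hF 0).mul (g.homogeneous i)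
      · have := (g.homogeneous 0).mul (hF i)
        rwa [add_comm g.degree (3 * D)] at this
    have e2 : aeval (gen K) (F 0 * g.poly i - g.poly 0 * F i) = 0 := by
      rw [map_sub, map_mul, map_mul, ← k1 i]
      refine Fin.cases ?_ (fun j => ?_) i
      · rw [gen_zero, iterate_map_one]
        ring
      · rw [← f1 j, gen_succ]
        ring
    exact sub_eq_zero.1 (gx_inj e1 e2)
  have hdvd : g.poly 0 ∣ F 0 :=
    red_assoc (P := fun i => F 0 * g.poly i) (fun i => rfl) g.coprime (g.poly 0)
      fun i => ⟨F i, hprop i⟩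
  have hF0 : F 0 ≠ 0 := by
    intro h
    rw [h, map_zero] at f0
    exact f0 rfl
  have hg0 : g.poly 0 ≠ 0 := by
    intro h
    rw [h, map_zero] at k0
    exact k0 rfl
  have h2 := totalDegree_le_of_dvd_of_isDomain hdvd hF0
  rw [(hF 0).totalDegree hF0, (g.homogeneous 0).totalDegree hg0] at h2
  exact h2

end Pool.Agent.W480.X6
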