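import Pool.Agent.W480.X6.Data

set_option autoImplicit false
set_option linter.unusedSectionVars false

/-!
The points `R₁`, `R₂`, `R₃` and the field automorphism induced by the map.
-/

namespace Pool.Agent.W480.X6

open MvPolynomial WeierstrassCurve

universe u

variable (K : Type u) [Field K] [CharZero K]

theorem r2_eqn : (c0 K ^ 2 * rr K) ^ 2 = (c0 K * pp K) ^ 3 + bet K := by
  have h := (curve_eqs (two_ne K) (ll_ne K) (ll_ne1 K) (eE_ne K) (dD_ne K)).1
  rw [bet]
  change c0 K * ((rr K) ^ 2 - 1) = pp K ^ 3 - 1 at h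
  linear_combination (c0 K ^ 3) * h

theorem r3_eqn : (c0 K ^ 2 * ss K) ^ 2 = (c0 K * qq K) ^ 3 + bet K := by
  have h := (curve_eqs (two_ne K) (ll_ne K) (ll_ne1 K) (eE_ne K) (dD_ne K)).2
  rw [bet]
  change c0 K * ((ss K) ^ 2 - 1) = qq K ^ 3 - 1 at h
  linear_combination (c0 K ^ 3) * h

theorem r1_eqn : (c0 K ^ 2) ^ 2 = (c0 K) ^ 3 + bet K := by
  rw [bet]
  ring

section points

variable {K}
variable {F : Type u} [Field F] [DecidableEq F] {W : WeierstrassCurve.Affine F}

/-- three points with prescribed coordinates -/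
structure Trip (W : WeierstrassCurve.Affine (Rat3 K)) where
  /-- the constant point -/
  R1 : W.Point
  /-- the second point -/
  R2 : W.Point
  /-- the third point -/
  R3 : W.Point
  at1 : At R1 (c0 K) (c0 K ^ 2)
  at2 : At R2 (c0 K * pp K) (c0 K ^ 2 * rr K)
  at3 : At R3 (c0 K * qq K) (c0 K ^ 2 * ss K)

variable [DecidableEq (Rat3 K)]

theorem exists_trip {W : WeierstrassCurve.Affine (Rat3 K)} (hW : IsB W (bet K)) :
    Nonempty (Trip W) := by
  obtain ⟨R1, h1⟩ := hW.exists_at (r1_eqn K)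
    (mul_ne_zero (two_ne K) (pow_ne_zero 2 (c0_ne K)))
  obtain ⟨R2, h2⟩ := hW.exists_at (r2_eqn K)
    (mul_ne_zero (two_ne K) (mul_ne_zero (pow_ne_zero 2 (c0_ne K)) (rr_ne K)))
  obtain ⟨R3, h3⟩ := hW.exists_at (r3_eqn K)
    (mul_ne_zero (two_ne K) (mul_ne_zero (pow_ne_zero 2 (c0_ne K)) (ss_ne K)))
  exact ⟨⟨R1, R2, R3, h1, h2, h3⟩⟩

theorem Trip.at21 {W : WeierstrassCurve.Affine (Rat3 K)} (hW : IsB W (bet K)) (T : Trip W) :
    At (T.R2 + T.R1) (x2 K) (y2 K) := by
  refine add_at_ne hW T.at2 T.at1 ?_ (l1 K) rfl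
  intro h
  have : c0 K * (pp K - 1) = 0 := by linear_combination h
  exact mul_ne_zero (c0_ne K) (pp_ne1 K) this

theorem Trip.at32 {W : WeierstrassCurve.Affine (Rat3 K)} (hW : IsB W (bet K)) (T : Trip W) :
    At (T.R3 + T.R2) (x3 K) (y3 K) := by
  refine add_at_ne hW T.at3 T.at2 ?_ (l2 K) rfl
  intro h
  have : c0 K * (qq K - pp K) = 0 := by linear_combination h
  exact mul_ne_zero (c0_ne K) (qp_ne K) this

end points

/-- the curve over the field of rational functions -/
noncomputable def W0 : WeierstrassCurve.Affine (Rat3 K) := ⟨0, 0, 0, 0, bet K⟩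

theorem W0_isB : IsB (W0 K) (bet K) := ⟨rfl, rfl, rfl, rfl, rfl⟩

theorem x2_eq : x2 K = c0 K * pn K := by
  rw [pn, mul_div_cancel₀ _ (c0_ne K)]

theorem y2_eq : y2 K = c0 K ^ 2 * rn K := by
  rw [rn, mul_div_cancel₀ _ (pow_ne_zero 2 (c0_ne K))]

theorem x3_eq : x3 K = c0 K * qn K := by
  rw [qn, mul_div_cancel₀ _ (c0_ne K)]

theorem y3_eq : y3 K = c0 K ^ 2 * sn K := by
  rw [sn, mul_div_cancel₀ _ (pow_ne_zero 2 (c0_ne K))]

theorem rn_curve : c0 K * (rn K ^ 2 - 1) = pn K ^ 3 - 1 := by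
  classical
  obtain ⟨T⟩ := exists_trip (W0_isB K)
  have h := (T.at21 (W0_isB K)).eqn (W0_isB K)
  rw [x2_eq, y2_eq, bet] at h
  have h1 := pow_ne_zero 3 (c0_ne K)
  apply mul_left_cancel₀ h1
  linear_combination h

theorem sn_curve : c0 K * (sn K ^ 2 - 1) = qn K ^ 3 - 1 := by
  classical
  obtain ⟨T⟩ := exists_trip (W0_isB K)
  have h := (T.at32 (W0_isB K)).eqn (W0_isB K)
  rw [x3_eq, y3_eq, bet] at h
  have h1 := pow_ne_zero 3 (c0_ne K)
  apply mul_left_cancel₀ h1
  linear_combination h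

theorem recover_n : rho (pn K) (qn K) (ln K) = rn K - 1 ∧ cc (pn K) (qn K) (ln K) = c0 K := by
  have h := recover (two_ne K) (c0_ne K) (rn_ne1 K) (ln_ne K) (ln_ne1 K)
    (s := sn K) (by rw [ln, div_mul_cancel₀ _ (rn_ne1 K)]) (rn_curve K) (sn_curve K)
  exact ⟨h.1, h.2.1⟩

theorem sn_eq : sn K = 1 + ln K * (rn K - 1) := by
  rw [ln, div_mul_cancel₀ _ (rn_ne1 K)]
  ring

theorem ss_eq : ss K - 1 = ll K * (rr K - 1) := by
  rw [ss, rr]
  ring

/-- the images of the coordinates -/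
noncomputable def img : Fin 3 → Rat3 K := ![pn K, qn K, ln K]

theorem mem_formula {F : Type u} [Field F] (M : Subfield F) {p q l : F} (hp : p ∈ M) (hq : q ∈ M)
    (hl : l ∈ M) : rho p q l ∈ M ∧ cc p q l ∈ M := by
  have h1 : (1 : F) ∈ M := one_mem M
  have hP : p ^ 3 - 1 ∈ M := sub_mem (pow_mem hp 3) h1
  have hQ : q ^ 3 - 1 ∈ M := sub_mem (pow_mem hq 3) h1
  have hE : eE p q l ∈ M := sub_mem (mul_mem hl hP) hQ
  have hD : dD p q l ∈ M := sub_mem hQ (mul_mem (pow_mem hl 2) hP)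
  have h2 : (2 : F) ∈ M := by exact_mod_cast natCast_mem M 2
  have h4 : (4 : F) ∈ M := by exact_mod_cast natCast_mem M 4
  exact ⟨div_mem (mul_mem h2 hE) hD,
    div_mem (pow_mem hD 2) (mul_mem h4 (mul_mem hl (mul_mem (sub_mem h1 hl) hE)))⟩

/-- every subfield containing the images contains the coordinates -/
theorem coords_mem (M : Subfield (Rat3 K)) (h : ∀ i, img K i ∈ M) :
    pp K ∈ M ∧ qq K ∈ M ∧ ll K ∈ M := by
  classical
  have hp : pn K ∈ M := h 0
  have hq : qn K ∈ M := h 1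
  have hl : ln K ∈ M := h 2
  obtain ⟨hrho, hcc⟩ := mem_formula M hp hq hl
  rw [(recover_n K).1] at hrho
  rw [(recover_n K).2] at hcc
  have hr : rn K ∈ M := by
    have := add_mem hrho (one_mem M)
    rwa [sub_add_cancel] at this
  have hs : sn K ∈ M := by
    rw [sn_eq]
    exact add_mem (one_mem M) (mul_mem hl hrho)
  have hc2 : c0 K ^ 2 ∈ M := pow_mem hcc 2
  obtain ⟨T⟩ := exists_trip (W0_isB K)
  have i1 : In M T.R1 := Or.inr ⟨_, _, T.at1, hcc, hc2⟩
  have i21 : In M (T.R2 + T.R1) :=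
    Or.inr ⟨_, _, T.at21 (W0_isB K), by rw [x2_eq]; exact mul_mem hcc hp,
      by rw [y2_eq]; exact mul_mem hc2 hr⟩
  have i32 : In M (T.R3 + T.R2) :=
    Or.inr ⟨_, _, T.at32 (W0_isB K), by rw [x3_eq]; exact mul_mem hcc hq,
      by rw [y3_eq]; exact mul_mem hc2 hs⟩
  have i2 : In M T.R2 := by
    have := i21.add (W0_isB K) (i1.neg (W0_isB K))
    rwa [add_neg_cancel_right] at this
  have i3 : In M T.R3 := by
    have := i32.add (W0_isB K) (i2.neg (W0_isB K))
    rwa [add_neg_cancel_right] at this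
  obtain ⟨m1, m2⟩ := i2.coords T.at2
  obtain ⟨m3, m4⟩ := i3.coords T.at3
  have hc := c0_ne K
  have hc' := pow_ne_zero 2 (c0_ne K)
  have k1 : pp K ∈ M := by
    have := div_mem m1 hcc
    rwa [mul_div_cancel_left₀ _ hc] at this
  have k2 : rr K ∈ M := by
    have := div_mem m2 hc2
    rwa [mul_div_cancel_left₀ _ hc'] at this
  have k3 : qq K ∈ M := by
    have := div_mem m3 hcc
    rwa [mul_div_cancel_left₀ _ hc] at this
  have k4 : ss K ∈ M := by
    have := div_mem m4 hc2
    rwa [mul_div_cancel_left₀ _ hc'] at this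
  refine ⟨k1, k3, ?_⟩
  have k5 : ll K = (ss K - 1) / (rr K - 1) := by
    rw [ss_eq, mul_div_cancel_right₀ _ (rr_ne1 K)]
  rw [k5]
  exact div_mem (sub_mem k4 (one_mem M)) (sub_mem k2 (one_mem M))

theorem adjoin_img : IntermediateField.adjoin K (Set.range (img K)) = ⊤ := by
  obtain ⟨h1, h2, h3⟩ := coords_mem K (IntermediateField.adjoin K (Set.range (img K))).toSubfield
    (fun i => IntermediateField.subset_adjoin K _ ⟨i, rfl⟩)
  have hX : ∀ i : Fin 3, io (X i : Pol K) ∈ IntermediateField.adjoin K (Set.range (img K)) := by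
    intro i
    fin_cases i
    · exact h1
    · exact h2
    · exact h3
  rw [eq_top_iff]
  rintro z -
  obtain ⟨A, B, hB, rfl⟩ := exists_frac z
  have hpol : ∀ A : Pol K, io A ∈ IntermediateField.adjoin K (Set.range (img K)) := by
    intro A
    induction A using MvPolynomial.induction_on with
    | C a =>
      have : io (C a) = algebraMap K (Rat3 K) a := by
        rw [← MvPolynomial.algebraMap_eq]
        exact (IsScalarTower.algebraMap_apply K (Pol K) (Rat3 K) a).symm
      rw [this]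
      exact IntermediateField.algebraMap_mem _ _
    | add p q hp hq => rw [map_add]; exact add_mem hp hq
    | mul_X p i hp =>
      rw [map_mul]
      exact mul_mem hp (hX i)
  exact div_mem (hpol A) (hpol B)

theorem img_indep : AlgebraicIndependent K (img K) := by
  have halg : Algebra.IsAlgebraic (Algebra.adjoin K (Set.range (img K))) (Rat3 K) := by
    constructor
    intro z
    have hz : z ∈ IntermediateField.adjoin K (Set.range (img K)) := by
      rw [adjoin_img]
      trivial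
    rw [IntermediateField.mem_adjoin_iff_div] at hz
    obtain ⟨x, hx, y, hy, rfl⟩ := hz
    exact (isAlgebraic_algebraMap (A := Rat3 K)
      (⟨x, hx⟩ : Algebra.adjoin K (Set.range (img K)))).mul
      (isAlgebraic_algebraMap (A := Rat3 K)
      (⟨y, hy⟩ : Algebra.adjoin K (Set.range (img K)))).inv
  refine (Algebra.IsAlgebraic.isTranscendenceBasis_of_lift_le_trdeg_of_finite K (img K) ?_).1
  have h1 : AlgebraicIndependent K (fun i : Fin 3 => algebraMap (Pol K) (Rat3 K) (X i)) :=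
    (MvPolynomial.algebraicIndependent_X (Fin 3) K).map' (f := IsScalarTower.toAlgHom K _ _)
      (IsFractionRing.injective (Pol K) (Rat3 K))
  exact h1.lift_cardinalMk_le_trdeg

end Pool.Agent.W480.X6
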