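import Pool.Agent.W480.X6.Size

set_option autoImplicit false

/-!
The numerators and denominators of the abscissas of `2 ^ j` times the constant point.
-/

namespace Pool.Agent.W480.X6

open MvPolynomial

universe u

variable {K : Type u} [Field K]

/-- no common prime factor -/
def NP (a b : Pol K) : Prop := ∀ π, Prime π → π ∣ a → π ∣ b → False

theorem NP.symm {a b : Pol K} (h : NP a b) : NP b a := fun π hπ h1 h2 => h π hπ h2 h1

theorem NP.one_left (b : Pol K) : NP 1 b := fun _ hπ h1 _ => hπ.not_isUnit (isUnit_of_dvd_one h1)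

theorem NP.pow_right {a b : Pol K} (h : NP a b) (n : ℕ) : NP a (b ^ n) :=
  fun π hπ h1 h2 => h π hπ h1 (hπ.dvd_of_dvd_pow h2)

theorem dvd_of_num {n : ℕ} (hn : (n : K) ≠ 0) {π x : Pol K} (h : π ∣ (n : Pol K) * x) : π ∣ x := by
  have h1 : x = C ((n : K)⁻¹) * ((n : Pol K) * x) := by
    rw [← mul_assoc]
    have : (C ((n : K)⁻¹) * (n : Pol K)) = 1 := by
      rw [← map_natCast (C : K →+* Pol K) n, ← map_mul, inv_mul_cancel₀ hn, map_one]
    rw [this, one_mul]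
  rw [h1]
  exact Dvd.dvd.mul_left h _

/-- numerators and denominators of the duplication sequence -/
noncomputable def dup (b₁ b₂ : Pol K) : ℕ → Pol K × Pol K
  | 0 => (1, 1)
  | j + 1 => ((dup b₁ b₂ j).1 * (b₂ * (dup b₁ b₂ j).1 ^ 3 - 8 * (b₁ * (dup b₁ b₂ j).2 ^ 3)),
      4 * ((dup b₁ b₂ j).2 * (b₂ * (dup b₁ b₂ j).1 ^ 3 + b₁ * (dup b₁ b₂ j).2 ^ 3)))

theorem np_step [CharZero K] {b₁ b₂ A B : Pol K} (hb : NP b₁ b₂) (hAB : NP A B) (hA1 : NP A b₁)
    (hA2 : NP A b₂) (hB1 : NP B b₁) (hB2 : NP B b₂) :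
    NP (A * (b₂ * A ^ 3 - 8 * (b₁ * B ^ 3))) (4 * (B * (b₂ * A ^ 3 + b₁ * B ^ 3))) ∧
    NP (A * (b₂ * A ^ 3 - 8 * (b₁ * B ^ 3))) b₁ ∧
    NP (A * (b₂ * A ^ 3 - 8 * (b₁ * B ^ 3))) b₂ ∧
    NP (4 * (B * (b₂ * A ^ 3 + b₁ * B ^ 3))) b₁ ∧
    NP (4 * (B * (b₂ * A ^ 3 + b₁ * B ^ 3))) b₂ := by
  have c4 : ((4 : ℕ) : K) ≠ 0 := by norm_num
  have c8 : ((8 : ℕ) : K) ≠ 0 := by norm_num
  have c9 : ((9 : ℕ) : K) ≠ 0 := by norm_num
  have d4 : ∀ π x : Pol K, π ∣ 4 * x → π ∣ x := fun π x h => dvd_of_num c4 (by exact_mod_cast h)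
  have d8 : ∀ π x : Pol K, π ∣ 8 * x → π ∣ x := fun π x h => dvd_of_num c8 (by exact_mod_cast h)
  have d9 : ∀ π x : Pol K, π ∣ 9 * x → π ∣ x := fun π x h => dvd_of_num c9 (by exact_mod_cast h)
  -- basic implications
  have k1 : ∀ π, Prime π → π ∣ b₂ * A ^ 3 → π ∣ b₁ * B ^ 3 → False := by
    intro π hπ h1 h2
    rcases hπ.dvd_or_dvd h1 with h3 | h3
    · rcases hπ.dvd_or_dvd h2 with h4 | h4
      · exact hb π hπ h4 h3
      · exact hB2 π hπ (hπ.dvd_of_dvd_pow h4) h3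
    · have h3' := hπ.dvd_of_dvd_pow h3
      rcases hπ.dvd_or_dvd h2 with h4 | h4
      · exact hA1 π hπ h3' h4
      · exact hAB π hπ h3' (hπ.dvd_of_dvd_pow h4)
  refine ⟨?_, ?_, ?_, ?_, ?_⟩
  · intro π hπ h1 h2
    rcases hπ.dvd_or_dvd h1 with h3 | h3
    · rcases hπ.dvd_or_dvd (d4 _ _ h2) with h4 | h4
      · exact hAB π hπ h3 h4
      · have h5 : π ∣ b₂ * A ^ 3 := Dvd.dvd.mul_left (dvd_pow h3 (by norm_num)) _
        exact k1 π hπ h5 ((dvd_add_right h5).1 h4)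
    · rcases hπ.dvd_or_dvd (d4 _ _ h2) with h4 | h4
      · have h5 : π ∣ b₁ * B ^ 3 := Dvd.dvd.mul_left (dvd_pow h4 (by norm_num)) _
        have h6 : π ∣ b₂ * A ^ 3 := by
          have := dvd_add h3 (Dvd.dvd.mul_left h5 8)
          rwa [sub_add_cancel] at this
        exact k1 π hπ h6 h5
      · have h5 : π ∣ b₁ * B ^ 3 := by
          apply d9
          have := dvd_sub h4 h3
          have e : b₂ * A ^ 3 + b₁ * B ^ 3 - (b₂ * A ^ 3 - 8 * (b₁ * B ^ 3)) =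
            9 * (b₁ * B ^ 3) := by ring
          rwa [e] at this
        exact k1 π hπ ((dvd_add_left h5).1 h4) h5
  · intro π hπ h1 h2
    rcases hπ.dvd_or_dvd h1 with h3 | h3
    · exact hA1 π hπ h3 h2
    · have h5 : π ∣ b₁ * B ^ 3 := Dvd.dvd.mul_right h2 _
      have h6 : π ∣ b₂ * A ^ 3 := by
        have := dvd_add h3 (Dvd.dvd.mul_left h5 8)
        rwa [sub_add_cancel] at this
      exact k1 π hπ h6 h5
  · intro π hπ h1 h2
    rcases hπ.dvd_or_dvd h1 with h3 | h3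
    · exact hA2 π hπ h3 h2
    · have h5 : π ∣ b₂ * A ^ 3 := Dvd.dvd.mul_right h2 _
      have h6 : π ∣ b₁ * B ^ 3 := by
        apply d8
        have := dvd_sub h5 h3
        rwa [sub_sub_cancel] at this
      exact k1 π hπ h5 h6
  · intro π hπ h1 h2
    rcases hπ.dvd_or_dvd (d4 _ _ h1) with h3 | h3
    · exact hB1 π hπ h3 h2
    · have h5 : π ∣ b₁ * B ^ 3 := Dvd.dvd.mul_right h2 _
      exact k1 π hπ ((dvd_add_left h5).1 h3) h5
  · intro π hπ h1 h2
    rcases hπ.dvd_or_dvd (d4 _ _ h1) with h3 | h3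
    · exact hB2 π hπ h3 h2
    · have h5 : π ∣ b₂ * A ^ 3 := Dvd.dvd.mul_right h2 _
      exact k1 π hπ h5 ((dvd_add_right h5).1 h3)

theorem dup_np [CharZero K] {b₁ b₂ : Pol K} (hb : NP b₁ b₂) (j : ℕ) :
    NP (dup b₁ b₂ j).1 (dup b₁ b₂ j).2 ∧ NP (dup b₁ b₂ j).1 b₁ ∧ NP (dup b₁ b₂ j).1 b₂ ∧
      NP (dup b₁ b₂ j).2 b₁ ∧ NP (dup b₁ b₂ j).2 b₂ := by
  induction j with
  | zero => exact ⟨NP.one_left _, NP.one_left _, NP.one_left _, NP.one_left _, NP.one_left _⟩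
  | succ j ih =>
    obtain ⟨h1, h2, h3, h4, h5⟩ := ih
    exact np_step hb h1 h2 h3 h4 h5

theorem totalDegree_pow' (A : Pol K) (hA : A ≠ 0) (n : ℕ) :
    (A ^ n).totalDegree = n * A.totalDegree := by
  induction n with
  | zero => simp
  | succ n ih =>
    rw [pow_succ, totalDegree_mul_of_isDomain (pow_ne_zero _ hA) hA, ih]
    ring

theorem totalDegree_num_mul {n : ℕ} (hn : (n : K) ≠ 0) (A : Pol K) :
    ((n : Pol K) * A).totalDegree = A.totalDegree := by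
  by_cases hA : A = 0
  · rw [hA, mul_zero]
  · have h1 : (n : Pol K) ≠ 0 := by
      rw [← map_natCast (C : K →+* Pol K) n]
      intro h
      exact hn ((map_eq_zero_iff _ (C_injective _ _)).1 h)
    rw [totalDegree_mul_of_isDomain h1 hA]
    have : (n : Pol K).totalDegree = 0 := by
      rw [← map_natCast (C : K →+* Pol K) n, totalDegree_C]
    omega

theorem dup_deg [CharZero K] {b₁ b₂ : Pol K} (h2 : b₂ ≠ 0)
    (hlt : b₂.totalDegree < b₁.totalDegree) (j : ℕ) :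
    (dup b₁ b₂ j).1 ≠ 0 ∧ (dup b₁ b₂ j).2 ≠ 0 ∧
      3 * (dup b₁ b₂ j).1.totalDegree + b₁.totalDegree = b₁.totalDegree * 4 ^ j ∧
      3 * (dup b₁ b₂ j).2.totalDegree + b₁.totalDegree = b₁.totalDegree * 4 ^ j ∧
      b₂ * (dup b₁ b₂ j).1 ^ 3 + b₁ * (dup b₁ b₂ j).2 ^ 3 ≠ 0 := by
  have h1 : b₁ ≠ 0 := by
    rintro rfl
    simp at hlt
  have aux : ∀ A B : Pol K, A ≠ 0 → B ≠ 0 → A.totalDegree = B.totalDegree →
      (b₂ * A ^ 3).totalDegree < (b₁ * B ^ 3).totalDegree ∧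
      (b₁ * B ^ 3).totalDegree = b₁.totalDegree + 3 * B.totalDegree := by
    intro A B hA hB hd
    rw [totalDegree_mul_of_isDomain h2 (pow_ne_zero _ hA),
      totalDegree_mul_of_isDomain h1 (pow_ne_zero _ hB), totalDegree_pow' _ hA,
      totalDegree_pow' _ hB]
    exact ⟨by omega, by omega⟩
  have c4 : ((4 : ℕ) : K) ≠ 0 := by norm_num
  have c8 : ((8 : ℕ) : K) ≠ 0 := by norm_num
  induction j with
  | zero =>
    refine ⟨one_ne_zero, one_ne_zero, ?_, ?_, ?_⟩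
    · simp [dup]
    · simp [dup]
    · obtain ⟨k1, -⟩ := aux 1 1 one_ne_zero one_ne_zero rfl
      intro h
      have := totalDegree_add_eq_right_of_totalDegree_lt k1
      simp only [dup] at h
      rw [h, totalDegree_zero] at this
      omega
  | succ j ih =>
    obtain ⟨hA, hB, dA, dB, hs⟩ := ih
    have hd : (dup b₁ b₂ j).1.totalDegree = (dup b₁ b₂ j).2.totalDegree := by omega
    obtain ⟨k1, k2⟩ := aux _ _ hA hB hd
    have e8 : (8 * (b₁ * (dup b₁ b₂ j).2 ^ 3)).totalDegree =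
        (b₁ * (dup b₁ b₂ j).2 ^ 3).totalDegree := by
      have := totalDegree_num_mul c8 (b₁ * (dup b₁ b₂ j).2 ^ 3)
      exact_mod_cast this
    have d1 : (b₂ * (dup b₁ b₂ j).1 ^ 3 - 8 * (b₁ * (dup b₁ b₂ j).2 ^ 3)).totalDegree =
        b₁.totalDegree + 3 * (dup b₁ b₂ j).2.totalDegree := by
      rw [sub_eq_add_neg, totalDegree_add_eq_right_of_totalDegree_lt, totalDegree_neg, e8, k2]
      rw [totalDegree_neg, e8]
      exact k1
    have d2 : (b₂ * (dup b₁ b₂ j).1 ^ 3 + b₁ * (dup b₁ b₂ j).2 ^ 3).totalDegree =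
        b₁.totalDegree + 3 * (dup b₁ b₂ j).2.totalDegree := by
      rw [totalDegree_add_eq_right_of_totalDegree_lt k1, k2]
    have n1 : b₂ * (dup b₁ b₂ j).1 ^ 3 - 8 * (b₁ * (dup b₁ b₂ j).2 ^ 3) ≠ 0 := by
      intro h
      rw [h, totalDegree_zero] at d1
      omega
    have f1 : (dup b₁ b₂ (j + 1)).1.totalDegree =
        b₁.totalDegree + 4 * (dup b₁ b₂ j).1.totalDegree := by
      show ((dup b₁ b₂ j).1 * (b₂ * (dup b₁ b₂ j).1 ^ 3 -
        8 * (b₁ * (dup b₁ b₂ j).2 ^ 3))).totalDegree = _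
      rw [totalDegree_mul_of_isDomain hA n1, d1]
      omega
    have f2 : (dup b₁ b₂ (j + 1)).2.totalDegree =
        b₁.totalDegree + 4 * (dup b₁ b₂ j).1.totalDegree := by
      show (4 * ((dup b₁ b₂ j).2 * (b₂ * (dup b₁ b₂ j).1 ^ 3 +
        b₁ * (dup b₁ b₂ j).2 ^ 3))).totalDegree = _
      have := totalDegree_num_mul c4 ((dup b₁ b₂ j).2 * (b₂ * (dup b₁ b₂ j).1 ^ 3 +
        b₁ * (dup b₁ b₂ j).2 ^ 3))
      push_cast at this
      rw [this, totalDegree_mul_of_isDomain hB hs, d2]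
      omega
    have g1 : (dup b₁ b₂ (j + 1)).1 ≠ 0 := mul_ne_zero hA n1
    have g2 : (dup b₁ b₂ (j + 1)).2 ≠ 0 := by
      intro h
      rw [h, totalDegree_zero] at f2
      omega
    refine ⟨g1, g2, ?_, ?_, ?_⟩
    · rw [f1, pow_succ]
      linarith
    · rw [f2, pow_succ]
      linarith
    · obtain ⟨k3, -⟩ := aux _ _ g1 g2 (by omega)
      intro h
      have := totalDegree_add_eq_right_of_totalDegree_lt k3
      rw [h, totalDegree_zero] at this
      omega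

/-- a reduced fraction has minimal size -/
theorem Sz.lower {A B : Pol K} {d : ℕ} (hA : A ≠ 0) (hB : B ≠ 0) (hAB : NP A B)
    (h : Sz (io A / io B) d) : A.totalDegree ≤ d := by
  obtain ⟨A', B', h0, h1, h2, h3⟩ := h
  rw [div_eq_div_iff (io_ne hB) (io_ne h0), ← map_mul, ← map_mul] at h3
  have h4 := io_inj h3
  have h5 : A ∣ A' * B := ⟨B', h4.symm⟩
  have h6 : A ∣ A' := UniqueFactorizationMonoid.dvd_of_dvd_mul_left_of_no_prime_factors hA
    (fun d hd1 hd2 hd => hAB d hd hd1 hd2) h5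
  have hA' : A' ≠ 0 := by
    rintro rfl
    rw [zero_mul] at h4
    exact mul_ne_zero hA h0 h4
  exact (totalDegree_le_of_dvd_of_isDomain h6 hA').trans h1

/-- polynomials without a common variable have no common prime factor -/
theorem NP.of_vars {f g : Pol K} (hf : f ≠ 0) (hg : g ≠ 0)
    (h : ∀ i, degreeOf i f = 0 ∨ degreeOf i g = 0) : NP f g := by
  rintro π hπ ⟨u, rfl⟩ ⟨v, rfl⟩
  have hu : u ≠ 0 := right_ne_zero_of_mul hf
  have hv : v ≠ 0 := right_ne_zero_of_mul hg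
  apply hπ.not_isUnit
  have h0 : ∀ i, degreeOf i π = 0 := by
    intro i
    have h1 := h i
    rw [degreeOf_mul_eq hπ.ne_zero hu, degreeOf_mul_eq hπ.ne_zero hv] at h1
    omega
  have h1 : π.totalDegree = 0 := by
    rw [totalDegree_eq_zero_iff]
    intro m hm i
    have h2 := monomial_le_degreeOf i hm
    rw [h0 i] at h2
    omega
  rw [totalDegree_eq_zero_iff_eq_C] at h1
  rw [h1]
  apply IsUnit.map
  rw [isUnit_iff_ne_zero]
  intro h2
  rw [h2, map_zero] at h1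
  exact hπ.ne_zero h1

end Pool.Agent.W480.X6
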