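import Pool.Agent.W480.X6.Pts

set_option autoImplicit false
set_option linter.unusedSectionVars false

/-!
The automorphism of the function field and its action on the points.
-/

namespace Pool.Agent.W480.X6

open MvPolynomial WeierstrassCurve

universe u

variable (K : Type u) [Field K] [CharZero K]

theorem img_inj : Function.Injective (aeval (img K) : Pol K →ₐ[K] Rat3 K) := img_indep K

/-- the field endomorphism induced by the map -/
noncomputable def sig : Rat3 K →ₐ[K] Rat3 K := IsFractionRing.liftAlgHom (img_inj K)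

theorem sig_poly (A : Pol K) : sig K (io A) = aeval (img K) A := by
  show IsFractionRing.lift (img_inj K) (algebraMap _ (Rat3 K) A) = _
  rw [IsFractionRing.lift_algebraMap]
  rfl

theorem sig_X (i : Fin 3) : sig K (io (X i)) = img K i := by
  rw [sig_poly, aeval_X]

theorem sig_pp : sig K (pp K) = pn K := sig_X K 0
theorem sig_qq : sig K (qq K) = qn K := sig_X K 1
theorem sig_ll : sig K (ll K) = ln K := sig_X K 2

theorem sig_c0 : sig K (c0 K) = c0 K := by
  rw [c0]
  have := map_cc (sig K).toRingHom (pp K) (qq K) (ll K)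
  refine this.trans ?_
  show cc (sig K (pp K)) (sig K (qq K)) (sig K (ll K)) = _
  rw [sig_pp, sig_qq, sig_ll, (recover_n K).2, c0]

theorem sig_rho : sig K (rho (pp K) (qq K) (ll K)) = rn K - 1 := by
  have := map_rho (sig K).toRingHom (pp K) (qq K) (ll K)
  refine this.trans ?_
  show rho (sig K (pp K)) (sig K (qq K)) (sig K (ll K)) = _
  rw [sig_pp, sig_qq, sig_ll, (recover_n K).1]

theorem sig_rr : sig K (rr K) = rn K := by
  rw [rr, map_add, map_one, sig_rho]
  ring

theorem sig_ss : sig K (ss K) = sn K := by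
  rw [ss, map_add, map_one, map_mul, sig_rho, sig_ll, sn_eq]

/-- the field of invariants -/
noncomputable def fixS : Subfield (Rat3 K) :=
  RingHom.eqLocusField (sig K).toRingHom (RingHom.id (Rat3 K))

theorem mem_fixS {z : Rat3 K} : z ∈ fixS K ↔ sig K z = z := Iff.rfl

theorem bet_mem : bet K ∈ fixS K := by
  rw [mem_fixS, bet, map_mul, map_sub, map_pow, map_one, sig_c0]

/-- the curve over the field of invariants -/
noncomputable def WS : WeierstrassCurve.Affine (fixS K) := ⟨0, 0, 0, 0, ⟨bet K, bet_mem K⟩⟩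

/-- the curve over the field of rational functions -/
noncomputable abbrev WL : WeierstrassCurve.Affine (Rat3 K) := (WS K)⁄(Rat3 K)

theorem WL_isB : IsB (WL K) (bet K) := ⟨rfl, rfl, rfl, rfl, rfl⟩

/-- the endomorphism as a homomorphism over the field of invariants -/
noncomputable def sigS : Rat3 K →ₐ[fixS K] Rat3 K :=
  { (sig K).toRingHom with commutes' := fun z => z.2 }

theorem sigS_apply (z : Rat3 K) : sigS K z = sig K z := rfl

variable [DecidableEq (Rat3 K)]

/-- the action on points -/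
noncomputable def Phi : (WL K).Point →+ (WL K).Point := Affine.Point.map (W' := WS K) (sigS K)

theorem Phi_at {P : (WL K).Point} {x y : Rat3 K} (h : At P x y) :
    At (Phi K P) (sig K x) (sig K y) := by
  obtain ⟨h1, rfl⟩ := h
  exact ⟨_, Affine.Point.map_some (W' := WS K) (sigS K) h1⟩

theorem Phi_iter_at {P : (WL K).Point} {x y : Rat3 K} (h : At P x y) (n : ℕ) :
    At ((Phi K)^[n] P) ((sig K)^[n] x) ((sig K)^[n] y) := by
  induction n with
  | zero => exact h
  | succ n ih =>
    rw [Function.iterate_succ_apply', Function.iterate_succ_apply',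
      Function.iterate_succ_apply']
    exact Phi_at K ih

theorem Phi_R1 (T : Trip (WL K)) : Phi K T.R1 = T.R1 := by
  have h := Phi_at K T.at1
  rw [map_pow, sig_c0] at h
  exact h.eq T.at1

theorem Phi_R2 (T : Trip (WL K)) : Phi K T.R2 = T.R2 + T.R1 := by
  have h := Phi_at K T.at2
  rw [map_mul, map_mul, map_pow, sig_c0, sig_pp, sig_rr, ← x2_eq, ← y2_eq] at h
  exact h.eq (T.at21 (WL_isB K))

theorem Phi_R3 (T : Trip (WL K)) : Phi K T.R3 = T.R3 + T.R2 := by
  have h := Phi_at K T.at3
  rw [map_mul, map_mul, map_pow, sig_c0, sig_qq, sig_ss, ← x3_eq, ← y3_eq] at h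
  exact h.eq (T.at32 (WL_isB K))

theorem Phi_iter_R1 (T : Trip (WL K)) (n : ℕ) : (Phi K)^[n] T.R1 = T.R1 := by
  induction n with
  | zero => rfl
  | succ n ih => rw [Function.iterate_succ_apply, Phi_R1, ih]

theorem Phi_iter_R2 (T : Trip (WL K)) (n : ℕ) : (Phi K)^[n] T.R2 = T.R2 + n • T.R1 := by
  induction n with
  | zero => simp
  | succ n ih =>
    rw [Function.iterate_succ_apply', ih, map_add, map_nsmul, Phi_R1, Phi_R2, add_smul, one_smul]
    abel

theorem Phi_iter_R3 (T : Trip (WL K)) (n : ℕ) :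
    (Phi K)^[n] T.R3 = T.R3 + n • T.R2 + (n.choose 2) • T.R1 := by
  induction n with
  | zero => simp
  | succ n ih =>
    rw [Function.iterate_succ_apply', ih, map_add, map_add, map_nsmul, map_nsmul, Phi_R1, Phi_R2,
      Phi_R3, Nat.choose_succ_succ' n 1, Nat.choose_one_right, add_smul, add_smul, one_smul,
      nsmul_add]
    have : n.choose (1 + 1) = n.choose 2 := rfl
    rw [this]
    abel

theorem sig_iter_mul (n : ℕ) (a b : Rat3 K) :
    (sig K)^[n] (a * b) = (sig K)^[n] a * (sig K)^[n] b := iterate_map_mul (sig K) n a b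

theorem sig_iter_c0 (n : ℕ) : (sig K)^[n] (c0 K) = c0 K := by
  induction n with
  | zero => rfl
  | succ n ih => rw [Function.iterate_succ_apply, sig_c0, ih]

/-- coordinates of the iterates of the second point -/
theorem at2_iter (T : Trip (WL K)) (n : ℕ) :
    At (T.R2 + n • T.R1) (c0 K * (sig K)^[n] (pp K)) (c0 K ^ 2 * (sig K)^[n] (rr K)) := by
  have h := Phi_iter_at K T.at2 n
  rw [Phi_iter_R2, sig_iter_mul, sig_iter_mul, pow_two, sig_iter_mul, sig_iter_c0,
    ← pow_two] at h
  exact h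

/-- coordinates of the iterates of the third point -/
theorem at3_iter (T : Trip (WL K)) (n : ℕ) :
    At (T.R3 + n • T.R2 + (n.choose 2) • T.R1) (c0 K * (sig K)^[n] (qq K))
      (c0 K ^ 2 * (sig K)^[n] (ss K)) := by
  have h := Phi_iter_at K T.at3 n
  rw [Phi_iter_R3, sig_iter_mul, sig_iter_mul, pow_two, sig_iter_mul, sig_iter_c0,
    ← pow_two] at h
  exact h

theorem sig_iter_ring (n : ℕ) : ∃ φ : Rat3 K →+* Rat3 K, ∀ z, (sig K)^[n] z = φ z := by
  induction n with
  | zero => exact ⟨RingHom.id _, fun z => rfl⟩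
  | succ n ih =>
    obtain ⟨φ, hφ⟩ := ih
    exact ⟨φ.comp (sig K).toRingHom, fun z => by rw [Function.iterate_succ_apply, hφ]; rfl⟩

/-- the ordinates in terms of the coordinates -/
theorem rr_iter (n : ℕ) : (sig K)^[n] (rr K) =
    1 + rho ((sig K)^[n] (pp K)) ((sig K)^[n] (qq K)) ((sig K)^[n] (ll K)) := by
  obtain ⟨φ, hφ⟩ := sig_iter_ring K n
  rw [hφ, hφ, hφ, hφ, rr, map_add, map_one, map_rho]

theorem ss_iter (n : ℕ) : (sig K)^[n] (ss K) = 1 + (sig K)^[n] (ll K) *
    rho ((sig K)^[n] (pp K)) ((sig K)^[n] (qq K)) ((sig K)^[n] (ll K)) := by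
  obtain ⟨φ, hφ⟩ := sig_iter_ring K n
  rw [hφ, hφ, hφ, hφ, ss, map_add, map_one, map_mul, map_rho]

theorem ll_iter (n : ℕ) : (sig K)^[n] (ll K) =
    ((sig K)^[n] (ss K) - 1) / ((sig K)^[n] (rr K) - 1) := by
  obtain ⟨φ, hφ⟩ := sig_iter_ring K n
  rw [hφ, hφ, hφ]
  have h : ll K = (ss K - 1) / (rr K - 1) := by
    rw [ss_eq, mul_div_cancel_right₀ _ (rr_ne1 K)]
  conv_lhs => rw [h]
  rw [map_div₀, map_sub, map_sub, map_one]

end Pool.Agent.W480.X6
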