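import Mathlib

set_option autoImplicit false

/-!
Sizes (total degrees of a representation as a fraction) and values at points of rational functions
in three variables.
-/

namespace Pool.Agent.W480.X6

open MvPolynomial

universe u

/-- polynomials in three variables -/
abbrev Pol (K : Type u) [Field K] : Type u := MvPolynomial (Fin 3) K

/-- rational functions in three variables -/
abbrev Rat3 (K : Type u) [Field K] : Type u := FractionRing (Pol K)

variable {K : Type u} [Field K]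

/-- the inclusion of polynomials in rational functions -/
noncomputable def io : Pol K →+* Rat3 K := algebraMap (Pol K) (Rat3 K)

theorem io_inj : Function.Injective (io (K := K)) := IsFractionRing.injective _ _

theorem io_ne {A : Pol K} (h : A ≠ 0) : io A ≠ 0 := by
  intro h1
  exact h (io_inj (by rw [h1, map_zero]))

theorem io_eq_zero {A : Pol K} : io A = 0 ↔ A = 0 :=
  ⟨fun h => io_inj (by rw [h, map_zero]), fun h => by rw [h, map_zero]⟩

theorem exists_frac (z : Rat3 K) : ∃ A B : Pol K, B ≠ 0 ∧ z = io A / io B := by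
  obtain ⟨A, B, hB, rfl⟩ := IsFractionRing.div_surjective (A := Pol K) z
  exact ⟨A, B, nonZeroDivisors.ne_zero hB, rfl⟩

/-- `z` is a quotient of two polynomials of total degree at most `d` -/
def Sz (z : Rat3 K) (d : ℕ) : Prop :=
  ∃ A B : Pol K, B ≠ 0 ∧ A.totalDegree ≤ d ∧ B.totalDegree ≤ d ∧ z = io A / io B

theorem Sz.mono {z : Rat3 K} {d e : ℕ} (h : Sz z d) (hde : d ≤ e) : Sz z e := by
  obtain ⟨A, B, h0, h1, h2, h3⟩ := h
  exact ⟨A, B, h0, h1.trans hde, h2.trans hde, h3⟩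

theorem Sz.exists' (z : Rat3 K) : ∃ d, Sz z d := by
  obtain ⟨A, B, hB, h⟩ := exists_frac z
  exact ⟨max A.totalDegree B.totalDegree, A, B, hB, le_max_left _ _, le_max_right _ _, h⟩

theorem Sz.const (a : K) : Sz (io (C a)) 0 :=
  ⟨C a, 1, one_ne_zero, by simp, by simp, by simp⟩

theorem Sz.poly (A : Pol K) : Sz (io A) A.totalDegree :=
  ⟨A, 1, one_ne_zero, le_rfl, by simp, by simp⟩

theorem Sz.zero : Sz (0 : Rat3 K) 0 := by
  have := Sz.const (0 : K)
  simpa using this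

theorem Sz.one : Sz (1 : Rat3 K) 0 := by
  have := Sz.const (1 : K)
  simpa using this

theorem Sz.nat (n : ℕ) : Sz (n : Rat3 K) 0 := by
  have := Sz.const (n : K)
  simpa using this

theorem Sz.two : Sz (2 : Rat3 K) 0 := by exact_mod_cast Sz.nat (K := K) 2

theorem Sz.three : Sz (3 : Rat3 K) 0 := by exact_mod_cast Sz.nat (K := K) 3

theorem Sz.four : Sz (4 : Rat3 K) 0 := by exact_mod_cast Sz.nat (K := K) 4

theorem Sz.eight : Sz (8 : Rat3 K) 0 := by exact_mod_cast Sz.nat (K := K) 8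

theorem Sz.X (i : Fin 3) : Sz (io (X i : Pol K)) 1 :=
  ⟨MvPolynomial.X i, 1, one_ne_zero, by rw [totalDegree_X], by simp, by simp⟩

theorem Sz.neg {z : Rat3 K} {d : ℕ} (h : Sz z d) : Sz (-z) d := by
  obtain ⟨A, B, h0, h1, h2, rfl⟩ := h
  exact ⟨-A, B, h0, by rwa [totalDegree_neg], h2, by rw [map_neg, neg_div]⟩

theorem Sz.add {z w : Rat3 K} {d e : ℕ} (hz : Sz z d) (hw : Sz w e) : Sz (z + w) (d + e) := by
  obtain ⟨A, B, h0, h1, h2, rfl⟩ := hz
  obtain ⟨A', B', h0', h1', h2', rfl⟩ := hw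
  refine ⟨A * B' + A' * B, B * B', mul_ne_zero h0 h0', ?_, ?_, ?_⟩
  · refine (totalDegree_add _ _).trans (max_le ?_ ?_)
    · exact (totalDegree_mul _ _).trans (add_le_add h1 h2')
    · exact (totalDegree_mul _ _).trans (by omega)
  · exact (totalDegree_mul _ _).trans (add_le_add h2 h2')
  · have e1 := io_ne h0
    have e2 := io_ne h0'
    rw [map_add, map_mul, map_mul, map_mul]
    field_simp

theorem Sz.sub {z w : Rat3 K} {d e : ℕ} (hz : Sz z d) (hw : Sz w e) : Sz (z - w) (d + e) := by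
  rw [sub_eq_add_neg]
  exact hz.add hw.neg

theorem Sz.mul {z w : Rat3 K} {d e : ℕ} (hz : Sz z d) (hw : Sz w e) : Sz (z * w) (d + e) := by
  obtain ⟨A, B, h0, h1, h2, rfl⟩ := hz
  obtain ⟨A', B', h0', h1', h2', rfl⟩ := hw
  refine ⟨A * A', B * B', mul_ne_zero h0 h0', ?_, ?_, ?_⟩
  · exact (totalDegree_mul _ _).trans (add_le_add h1 h1')
  · exact (totalDegree_mul _ _).trans (add_le_add h2 h2')
  · rw [map_mul, map_mul]
    field_simp

theorem Sz.inv {z : Rat3 K} {d : ℕ} (hz : Sz z d) : Sz z⁻¹ d := by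
  obtain ⟨A, B, h0, h1, h2, rfl⟩ := hz
  by_cases hA : A = 0
  · rw [hA, map_zero, zero_div, inv_zero]
    exact Sz.zero.mono (Nat.zero_le _)
  · exact ⟨B, A, hA, h2, h1, by rw [inv_div]⟩

theorem Sz.div {z w : Rat3 K} {d e : ℕ} (hz : Sz z d) (hw : Sz w e) : Sz (z / w) (d + e) := by
  rw [div_eq_mul_inv]
  exact hz.mul hw.inv

theorem Sz.pow {z : Rat3 K} {d : ℕ} (hz : Sz z d) (n : ℕ) : Sz (z ^ n) (n * d) := by
  obtain ⟨A, B, h0, h1, h2, rfl⟩ := hz
  refine ⟨A ^ n, B ^ n, pow_ne_zero _ h0, ?_, ?_, ?_⟩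
  · exact (totalDegree_pow _ _).trans (Nat.mul_le_mul_left _ h1)
  · exact (totalDegree_pow _ _).trans (Nat.mul_le_mul_left _ h2)
  · rw [map_pow, map_pow, div_pow]

/-- the rational function `z` is defined at the point `a` and has the value `v` there -/
def Ev (a : Fin 3 → K) (z : Rat3 K) (v : K) : Prop :=
  ∃ A B : Pol K, eval a B ≠ 0 ∧ z = io A / io B ∧ v = eval a A / eval a B

variable {a : Fin 3 → K}

theorem Ev.ne0 {B : Pol K} (h : eval a B ≠ 0) : B ≠ 0 := by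
  rintro rfl
  exact h (map_zero _)

theorem Ev.unique {z : Rat3 K} {v w : K} (hv : Ev a z v) (hw : Ev a z w) : v = w := by
  obtain ⟨A, B, h0, rfl, rfl⟩ := hv
  obtain ⟨A', B', h0', h1, rfl⟩ := hw
  rw [div_eq_div_iff (io_ne (Ev.ne0 h0)) (io_ne (Ev.ne0 h0')), ← map_mul, ← map_mul] at h1
  have h2 := io_inj h1
  rw [div_eq_div_iff h0 h0', ← map_mul, ← map_mul, h2]

theorem Ev.ne {z w : Rat3 K} {v u : K} (hv : Ev a z v) (hw : Ev a w u) (h : v ≠ u) : z ≠ w := by
  rintro rfl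
  exact h (hv.unique hw)

theorem Ev.poly (A : Pol K) : Ev a (io A) (eval a A) :=
  ⟨A, 1, by simp, by simp, by simp⟩

theorem Ev.X (i : Fin 3) : Ev a (io (X i : Pol K)) (a i) := by
  have := Ev.poly (a := a) (MvPolynomial.X i : Pol K)
  rwa [eval_X] at this

theorem Ev.nat (n : ℕ) : Ev a (n : Rat3 K) (n : K) := by
  have := Ev.poly (a := a) (n : Pol K)
  simpa using this

theorem Ev.zero : Ev a (0 : Rat3 K) (0 : K) := by exact_mod_cast Ev.nat (a := a) 0
theorem Ev.one : Ev a (1 : Rat3 K) (1 : K) := by exact_mod_cast Ev.nat (a := a) 1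
theorem Ev.two : Ev a (2 : Rat3 K) (2 : K) := by exact_mod_cast Ev.nat (a := a) 2
theorem Ev.three : Ev a (3 : Rat3 K) (3 : K) := by exact_mod_cast Ev.nat (a := a) 3
theorem Ev.four : Ev a (4 : Rat3 K) (4 : K) := by exact_mod_cast Ev.nat (a := a) 4

theorem Ev.neg {z : Rat3 K} {v : K} (h : Ev a z v) : Ev a (-z) (-v) := by
  obtain ⟨A, B, h0, rfl, rfl⟩ := h
  exact ⟨-A, B, h0, by rw [map_neg, neg_div], by rw [map_neg, neg_div]⟩

theorem Ev.add {z w : Rat3 K} {v u : K} (hz : Ev a z v) (hw : Ev a w u) : Ev a (z + w) (v + u) := by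
  obtain ⟨A, B, h0, rfl, rfl⟩ := hz
  obtain ⟨A', B', h0', rfl, rfl⟩ := hw
  refine ⟨A * B' + A' * B, B * B', ?_, ?_, ?_⟩
  · rw [map_mul]
    exact mul_ne_zero h0 h0'
  · have e1 := io_ne (Ev.ne0 h0)
    have e2 := io_ne (Ev.ne0 h0')
    rw [map_add, map_mul, map_mul, map_mul]
    field_simp
  · rw [map_add, map_mul, map_mul, map_mul]
    field_simp

theorem Ev.sub {z w : Rat3 K} {v u : K} (hz : Ev a z v) (hw : Ev a w u) : Ev a (z - w) (v - u) := by
  rw [sub_eq_add_neg, sub_eq_add_neg]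
  exact hz.add hw.neg

theorem Ev.mul {z w : Rat3 K} {v u : K} (hz : Ev a z v) (hw : Ev a w u) : Ev a (z * w) (v * u) := by
  obtain ⟨A, B, h0, rfl, rfl⟩ := hz
  obtain ⟨A', B', h0', rfl, rfl⟩ := hw
  refine ⟨A * A', B * B', ?_, ?_, ?_⟩
  · rw [map_mul]
    exact mul_ne_zero h0 h0'
  · rw [map_mul, map_mul, div_mul_div_comm]
  · rw [map_mul, map_mul, div_mul_div_comm]

theorem Ev.inv {z : Rat3 K} {v : K} (hz : Ev a z v) (hv : v ≠ 0) : Ev a z⁻¹ v⁻¹ := by
  obtain ⟨A, B, h0, rfl, rfl⟩ := hz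
  refine ⟨B, A, ?_, ?_, ?_⟩
  · intro h
    rw [h, zero_div] at hv
    exact hv rfl
  · rw [inv_div]
  · rw [inv_div]

theorem Ev.div {z w : Rat3 K} {v u : K} (hz : Ev a z v) (hw : Ev a w u) (hu : u ≠ 0) :
    Ev a (z / w) (v / u) := by
  rw [div_eq_mul_inv, div_eq_mul_inv]
  exact hz.mul (hw.inv hu)

theorem Ev.pow {z : Rat3 K} {v : K} (hz : Ev a z v) (n : ℕ) : Ev a (z ^ n) (v ^ n) := by
  obtain ⟨A, B, h0, rfl, rfl⟩ := hz
  refine ⟨A ^ n, B ^ n, ?_, ?_, ?_⟩
  · rw [map_pow]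
    exact pow_ne_zero _ h0
  · rw [map_pow, map_pow, div_pow]
  · rw [map_pow, map_pow, div_pow]

theorem Ev.cast {z : Rat3 K} {v w : K} (hz : Ev a z v) (h : v = w) : Ev a z w := h ▸ hz

end Pool.Agent.W480.X6
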